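import Mathlib

/-!
Cubic forms: symmetric trilinear form, third point of intersection.
-/

namespace Pool.Agent.MazurC

open MvPolynomial

section Tri

variable {n : ℕ} {M : Type*} [CommRing M]

/-- The trilinear form of a tensor. -/
def B (t : Fin n → Fin n → Fin n → M) (a b c : Fin n → M) : M :=
  ∑ i, ∑ j, ∑ k, t i j k * a i * b j * c k

/-- Symmetric tensors. -/
def Sym (t : Fin n → Fin n → Fin n → M) : Prop :=
  (∀ i j k, t i j k = t j i k) ∧ ∀ i j k, t i j k = t i k j

variable (t : Fin n → Fin n → Fin n → M)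

theorem B_add_left (a a' b c : Fin n → M) : B t (a + a') b c = B t a b c + B t a' b c := by
  simp only [B, Pi.add_apply, mul_add, add_mul, Finset.sum_add_distrib]

theorem B_smul_left (r : M) (a b c : Fin n → M) : B t (r • a) b c = r * B t a b c := by
  simp only [B, Pi.smul_apply, smul_eq_mul, Finset.mul_sum]
  refine Finset.sum_congr rfl fun i _ => Finset.sum_congr rfl fun j _ =>
    Finset.sum_congr rfl fun k _ => ?_
  ring

variable {t}

theorem B_swap12 (ht : Sym t) (a b c : Fin n → M) : B t a b c = B t b a c := by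
  simp only [B]
  rw [Finset.sum_comm]
  refine Finset.sum_congr rfl fun i _ => Finset.sum_congr rfl fun j _ =>
    Finset.sum_congr rfl fun k _ => ?_
  rw [ht.1 j i k]; ring

theorem B_swap23 (ht : Sym t) (a b c : Fin n → M) : B t a b c = B t a c b := by
  simp only [B]
  refine Finset.sum_congr rfl fun i _ => ?_
  rw [Finset.sum_comm]
  refine Finset.sum_congr rfl fun j _ => Finset.sum_congr rfl fun k _ => ?_
  rw [ht.2 i k j]; ring

theorem B_add_mid (ht : Sym t) (a b b' c : Fin n → M) :
    B t a (b + b') c = B t a b c + B t a b' c := by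
  rw [B_swap12 ht, B_add_left, B_swap12 ht b, B_swap12 ht b']

theorem B_smul_mid (ht : Sym t) (r : M) (a b c : Fin n → M) :
    B t a (r • b) c = r * B t a b c := by
  rw [B_swap12 ht, B_smul_left, B_swap12 ht b]

theorem B_add_right (ht : Sym t) (a b c c' : Fin n → M) :
    B t a b (c + c') = B t a b c + B t a b c' := by
  rw [B_swap23 ht, B_add_mid ht, B_swap23 ht a c, B_swap23 ht a c']

theorem B_smul_right (ht : Sym t) (r : M) (a b c : Fin n → M) :
    B t a b (r • c) = r * B t a b c := by
  rw [B_swap23 ht, B_smul_mid ht, B_swap23 ht a c]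

/-- The third point on the line through `a` and `z`. -/
def Phi (t : Fin n → Fin n → Fin n → M) (a z : Fin n → M) : Fin n → M :=
  B t z z a • a + (-B t a a z) • z

theorem Phi_swap (a z : Fin n → M) : Phi t z a = -Phi t a z := by
  simp only [Phi, neg_smul, neg_add_rev, neg_neg]

theorem Phi_smul_right (ht : Sym t) (r : M) (a z : Fin n → M) :
    Phi t a (r • z) = (r ^ 2) • Phi t a z := by
  simp only [Phi, B_smul_left, B_smul_mid ht, B_smul_right ht, smul_add, smul_smul]
  congr 2 <;> ring

theorem Phi_smul_left (ht : Sym t) (r : M) (a z : Fin n → M) :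
    Phi t (r • a) z = (r ^ 2) • Phi t a z := by
  simp only [Phi, B_smul_left, B_smul_mid ht, B_smul_right ht, smul_add, smul_smul]
  congr 2 <;> ring

theorem B_Phi (ht : Sym t) (a z : Fin n → M) (ha : B t a a a = 0) :
    B t a a (Phi t a z) = -(B t a a z) ^ 2 := by
  rw [Phi, B_add_right ht, B_smul_right ht, B_smul_right ht, ha]
  ring

theorem B_Phi_Phi (ht : Sym t) (a z : Fin n → M) (ha : B t a a a = 0) :
    B t (Phi t a z) (Phi t a z) a = -(B t a a z) ^ 2 * B t z z a := by
  have h1 : B t z a a = B t a a z := by rw [B_swap12 ht, B_swap23 ht]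
  have h2 : B t a z a = B t a a z := by rw [B_swap23 ht]
  simp only [Phi, B_add_left, B_smul_left, B_add_mid ht, B_smul_mid ht, ha, h1, h2]
  ring

theorem Phi_Phi (ht : Sym t) (a z : Fin n → M) (ha : B t a a a = 0) :
    Phi t a (Phi t a z) = (-(B t a a z) ^ 3) • z := by
  conv_lhs => rw [Phi, B_Phi ht a z ha, B_Phi_Phi ht a z ha, Phi]
  funext i
  simp only [Pi.add_apply, Pi.smul_apply, smul_eq_mul]
  ring

theorem B_Phi_zero (ht : Sym t) (a z : Fin n → M) (ha : B t a a a = 0) (hz : B t z z z = 0) :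
    B t (Phi t a z) (Phi t a z) (Phi t a z) = 0 := by
  have h1 : B t z a a = B t a a z := by rw [B_swap12 ht, B_swap23 ht]
  have h2 : B t a z a = B t a a z := by rw [B_swap23 ht]
  have h3 : B t a z z = B t z z a := by rw [B_swap12 ht, B_swap23 ht]
  have h4 : B t z a z = B t z z a := by rw [B_swap23 ht]
  simp only [Phi, B_add_left, B_smul_left, B_add_mid ht, B_smul_mid ht, B_add_right ht,
    B_smul_right ht, ha, hz, h1, h2, h3, h4]
  ring

theorem map_B {M' : Type*} [CommRing M'] (φ : M →+* M') (a b c : Fin n → M) :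
    φ (B t a b c) = B (fun i j k => φ (t i j k)) (fun i => φ (a i)) (fun i => φ (b i))
      (fun i => φ (c i)) := by
  simp only [B, map_sum, map_mul]

theorem map_Phi {M' : Type*} [CommRing M'] (φ : M →+* M') (a b : Fin n → M) :
    (fun i => φ (Phi t a b i)) = Phi (fun i j k => φ (t i j k)) (fun i => φ (a i))
      (fun i => φ (b i)) := by
  funext i
  simp only [Phi, Pi.add_apply, Pi.smul_apply, smul_eq_mul, map_add, map_mul, map_neg, map_B]

end Tri

section Tensor

variable {n : ℕ} {K : Type*} [Field K] [CharZero K]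

theorem exists_single {m : ℕ} (e : Fin n →₀ ℕ) (he : e.degree = m + 1) :
    ∃ i, ∃ e' : Fin n →₀ ℕ, e = Finsupp.single i 1 + e' ∧ e'.degree = m := by
  have h1 : e ≠ 0 := by
    rintro rfl
    simp at he
  obtain ⟨i, hi⟩ := Finsupp.ne_iff.1 h1
  have hi' : 1 ≤ e i := Nat.one_le_iff_ne_zero.2 hi
  refine ⟨i, e - Finsupp.single i 1, ?_, ?_⟩
  · rw [add_comm, tsub_add_cancel_of_le]
    rw [Finsupp.single_le_iff]; exact hi'
  · have h2 : e = Finsupp.single i 1 + (e - Finsupp.single i 1) := by
      rw [add_comm, tsub_add_cancel_of_le]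
      rw [Finsupp.single_le_iff]; exact hi'
    rw [h2, map_add, Finsupp.degree_single] at he
    omega

omit [CharZero K] in
theorem exists_tensor_aux (F : MvPolynomial (Fin n) K) (hF : F.IsHomogeneous 3) :
    ∃ c : Fin n → Fin n → Fin n → K, F = ∑ i, ∑ j, ∑ k, C (c i j k) * X i * X j * X k := by
  classical
  rw [F.as_sum]
  refine Finset.sum_induction _
    (fun G : MvPolynomial (Fin n) K => ∃ c : Fin n → Fin n → Fin n → K,
      G = ∑ i, ∑ j, ∑ k, C (c i j k) * X i * X j * X k) ?_ ?_ ?_
  · rintro G H ⟨c, hc⟩ ⟨d, hd⟩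
    refine ⟨fun i j k => c i j k + d i j k, ?_⟩
    rw [hc, hd]
    simp only [map_add, add_mul, Finset.sum_add_distrib]
  · exact ⟨fun _ _ _ => 0, by simp⟩
  · intro e he
    have hdeg : e.degree = 3 := by
      have := hF (mem_support_iff.1 he)
      rw [Finsupp.degree_eq_weight_one]
      exact this
    obtain ⟨i, e1, rfl, h1⟩ := exists_single e hdeg
    obtain ⟨j, e2, rfl, h2⟩ := exists_single e1 h1
    obtain ⟨k, e3, rfl, h3⟩ := exists_single e2 h2
    have h4 : e3 = 0 := (Finsupp.degree_eq_zero_iff e3).1 h3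
    subst h4
    rw [add_zero]
    refine ⟨fun a b c => if a = i ∧ b = j ∧ c = k then coeff (Finsupp.single i 1 +
      (Finsupp.single j 1 + Finsupp.single k 1)) F else 0, ?_⟩
    rw [Finset.sum_eq_single i, Finset.sum_eq_single j, Finset.sum_eq_single k]
    · simp only [and_self, if_true]
      rw [monomial_single_add, monomial_single_add]
      rw [← mul_one (coeff _ F), ← C_mul_monomial, ← X, pow_one, pow_one]
      simp only [mul_one]
      ring
    · intro b _ hb; simp [hb]
    · simp
    · intro b _ hb; simp [hb]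
    · simp
    · intro b _ hb; simp [hb]
    · simp

theorem exists_tensor (F : MvPolynomial (Fin n) K) (hF : F.IsHomogeneous 3) :
    ∃ t : Fin n → Fin n → Fin n → K, Sym t ∧
      F = ∑ i, ∑ j, ∑ k, C (t i j k) * X i * X j * X k := by
  obtain ⟨c, hc⟩ := exists_tensor_aux F hF
  refine ⟨fun i j k => (c i j k + c i k j + c j i k + c j k i + c k i j + c k j i) / 6,
    ⟨fun i j k => by ring, fun i j k => by ring⟩, ?_⟩
  have h1 : F = ∑ i, ∑ j, ∑ k, C (c i k j) * X i * X j * X k := by
    rw [hc]
    refine Finset.sum_congr rfl fun i _ => ?_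
    rw [Finset.sum_comm]
    refine Finset.sum_congr rfl fun j _ => Finset.sum_congr rfl fun k _ => ?_
    ring
  have h2 : F = ∑ i, ∑ j, ∑ k, C (c j i k) * X i * X j * X k := by
    rw [hc, Finset.sum_comm]
    refine Finset.sum_congr rfl fun i _ => Finset.sum_congr rfl fun j _ =>
      Finset.sum_congr rfl fun k _ => ?_
    ring
  have h3 : F = ∑ i, ∑ j, ∑ k, C (c j k i) * X i * X j * X k := by
    rw [h1, Finset.sum_comm]
    refine Finset.sum_congr rfl fun i _ => Finset.sum_congr rfl fun j _ =>
      Finset.sum_congr rfl fun k _ => ?_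
    ring
  have h4 : F = ∑ i, ∑ j, ∑ k, C (c k i j) * X i * X j * X k := by
    rw [h2]
    refine Finset.sum_congr rfl fun i _ => ?_
    rw [Finset.sum_comm]
    refine Finset.sum_congr rfl fun j _ => Finset.sum_congr rfl fun k _ => ?_
    ring
  have h5 : F = ∑ i, ∑ j, ∑ k, C (c k j i) * X i * X j * X k := by
    rw [h3]
    refine Finset.sum_congr rfl fun i _ => ?_
    rw [Finset.sum_comm]
    refine Finset.sum_congr rfl fun j _ => Finset.sum_congr rfl fun k _ => ?_
    ring
  have h6 : (6 : MvPolynomial (Fin n) K) * F = 6 * ∑ i, ∑ j, ∑ k,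
      C ((c i j k + c i k j + c j i k + c j k i + c k i j + c k j i) / 6) * X i * X j * X k := by
    have e : (6 : MvPolynomial (Fin n) K) * F = F + F + F + F + F + F := by ring
    have e2 : F + F + F + F + F + F =
        (∑ i, ∑ j, ∑ k, C (c i j k) * X i * X j * X k)
        + (∑ i, ∑ j, ∑ k, C (c i k j) * X i * X j * X k)
        + (∑ i, ∑ j, ∑ k, C (c j i k) * X i * X j * X k)
        + (∑ i, ∑ j, ∑ k, C (c j k i) * X i * X j * X k)
        + (∑ i, ∑ j, ∑ k, C (c k i j) * X i * X j * X k)
        + (∑ i, ∑ j, ∑ k, C (c k j i) * X i * X j * X k) := by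
      rw [← hc, ← h1, ← h2, ← h3, ← h4, ← h5]
    rw [e, e2]
    simp only [Finset.mul_sum, ← Finset.sum_add_distrib]
    refine Finset.sum_congr rfl fun i _ => Finset.sum_congr rfl fun j _ =>
      Finset.sum_congr rfl fun k _ => ?_
    have e3 : (6 : MvPolynomial (Fin n) K) * C ((c i j k + c i k j + c j i k + c j k i + c k i j
        + c k j i) / 6) = C (c i j k) + C (c i k j) + C (c j i k) + C (c j k i) + C (c k i j)
        + C (c k j i) := by
      have : (6 : MvPolynomial (Fin n) K) = C 6 := (map_ofNat C 6).symm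
      rw [this, ← C_mul, mul_div_cancel₀ _ (by norm_num : (6 : K) ≠ 0)]
      simp only [map_add]
    calc _ = (C (c i j k) + C (c i k j) + C (c j i k) + C (c j k i) + C (c k i j)
        + C (c k j i)) * X i * X j * X k := by ring
      _ = _ := by rw [← e3]; ring
  have h7 : (6 : MvPolynomial (Fin n) K) ≠ 0 := by
    exact_mod_cast (by norm_num : (6 : ℕ) ≠ 0)
  exact mul_left_cancel₀ h7 h6

end Tensor

end Pool.Agent.MazurC
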