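import Mathlib

/-!
Local Zariski closures of rational points (Mazur's question), in homogeneous coordinates.
-/

namespace Pool.Agent.MazurC

open MvPolynomial Topology

/-- `K` a field with an embedding `σ` into a topological field `L`; `S` a set of homogeneous
polynomials over `K` in `n + 1` variables, defining a closed subset `X` of projective `n`-space.
`localIdeal σ S x` is the set of the polynomials `f` over `K` that vanish (with all their
homogeneous components, i.e. on the whole line spanned by `y`) at all points `(y_0 : ... : y_n)` of
`X(K)` lying in some neighbourhood of the point `x` of projective space over `L`. For `x` in `X(L)`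
it is the homogeneous ideal of the local Zariski closure `Z_x`. -/
def localIdeal {K : Type} [Field K] {L : Type} [NontriviallyNormedField L] (σ : K →+* L) {n : ℕ}
    (S : Set (MvPolynomial (Fin (n + 1)) K)) (x : Fin (n + 1) → L) :
    Set (MvPolynomial (Fin (n + 1)) K) :=
  {f | ∃ U ∈ 𝓝 x, ∀ y : Fin (n + 1) → K, y ≠ 0 →
    (∀ g ∈ S, eval y g = 0) →
    (∃ c : L, c ≠ 0 ∧ (fun i => c * σ (y i)) ∈ U) →
    ∀ t : K, eval (t • y) f = 0}

end Pool.Agent.MazurC
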