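import Mathlib

/-!
A complete nontrivially normed field in which a number field is dense is locally compact.
-/

namespace Pool.Agent.MazurC

open Filter Topology

theorem real_net (R c ε : ℝ) (hc : 0 < c) (hε : 0 < ε) :
    ∃ T : Set ℚ, T.Finite ∧ ∀ q : ℚ, |(q : ℝ)| ≤ R → ∃ t ∈ T, |((q - t : ℚ) : ℝ)| ^ c < ε := by
  obtain ⟨N, hN⟩ : ∃ N : ℕ, (1 / ε) ^ (1 / c) < N := exists_nat_gt _
  have hpos : 0 < (1 / ε) ^ (1 / c) := by positivity
  have hN0 : (0 : ℝ) < N := hpos.trans hN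
  obtain ⟨m, hm⟩ : ∃ m : ℕ, R * N + 1 ≤ m := exists_nat_ge _
  refine ⟨(fun k : ℤ => (k : ℚ) / N) '' (Set.Icc (-(m : ℤ)) m), (Set.finite_Icc _ _).image _, ?_⟩
  intro q hq
  refine ⟨((⌊q * N⌋ : ℤ) : ℚ) / N, ⟨⌊q * N⌋, ?_, rfl⟩, ?_⟩
  · have h1 : |(q * N : ℝ)| ≤ R * N := by
      rw [abs_mul, abs_of_pos hN0]; exact mul_le_mul_of_nonneg_right hq hN0.le
    have h2 := abs_le.1 h1
    have h3 : (⌊q * N⌋ : ℝ) = ⌊(q * N : ℝ)⌋ := by
      have : ((q * N : ℚ) : ℝ) = (q * N : ℝ) := by push_cast; rfl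
      rw [← this, Rat.floor_cast]
    have h4 := Int.floor_le (q * N : ℝ)
    have h5 := Int.lt_floor_add_one (q * N : ℝ)
    rw [← h3] at h4 h5
    constructor
    · have : (-(m : ℝ)) ≤ (⌊q * N⌋ : ℝ) := by linarith [h2.1]
      exact_mod_cast this
    · have : (⌊q * N⌋ : ℝ) ≤ m := by linarith [h2.2]
      exact_mod_cast this
  · have h4 := Int.floor_le (q * N)
    have h5 := Int.lt_floor_add_one (q * N)
    have hN0' : (0 : ℚ) < N := by exact_mod_cast hN0
    have h6 : |((q - ⌊q * N⌋ / N : ℚ) : ℝ)| ≤ 1 / N := by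
      have h7 : (0 : ℚ) ≤ q - ⌊q * N⌋ / N := by
        rw [sub_nonneg, div_le_iff₀ hN0']; exact h4
      have h8 : q - ⌊q * N⌋ / N ≤ 1 / (N : ℚ) := by
        rw [sub_le_iff_le_add, ← add_div, le_div_iff₀ hN0']; linarith
      rw [abs_of_nonneg (by exact_mod_cast h7)]
      have : ((q - ⌊q * N⌋ / N : ℚ) : ℝ) ≤ ((1 / (N : ℚ) : ℚ) : ℝ) := by exact_mod_cast h8
      refine this.trans (le_of_eq ?_)
      push_cast; rfl
    have h9 : |((q - ⌊q * N⌋ / N : ℚ) : ℝ)| ^ c ≤ (1 / N : ℝ) ^ c :=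
      Real.rpow_le_rpow (abs_nonneg _) h6 hc.le
    refine lt_of_le_of_lt h9 ?_
    have h10 : 1 / (N : ℝ) < (1 / (1 / ε) ^ (1 / c)) := by
      exact one_div_lt_one_div_of_lt hpos hN
    have h11 : (1 / (N : ℝ)) ^ c < (1 / (1 / ε) ^ (1 / c)) ^ c :=
      Real.rpow_lt_rpow (by positivity) h10 hc
    refine lt_of_lt_of_eq h11 ?_
    rw [Real.div_rpow (by positivity) (by positivity), Real.one_rpow, ← Real.rpow_mul (by positivity),
      one_div_mul_cancel hc.ne', Real.rpow_one]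
    simp

theorem padic_net (p : ℕ) [Fact p.Prime] (R c ε : ℝ) (hc : 0 < c) (hε : 0 < ε) :
    ∃ T : Set ℚ, T.Finite ∧ ∀ q : ℚ, (padicNorm p q : ℝ) ≤ R →
      ∃ t ∈ T, (padicNorm p (q - t) : ℝ) ^ c < ε := by
  have hp1 : (1 : ℝ) < p := by exact_mod_cast (Fact.out : p.Prime).one_lt
  obtain ⟨a, ha⟩ : ∃ a : ℕ, R ≤ (p : ℝ) ^ a := by
    obtain ⟨a, ha⟩ := pow_unbounded_of_one_lt R hp1
    exact ⟨a, ha.le⟩
  obtain ⟨b, hb⟩ : ∃ b : ℕ, (1 / ε) ^ (1 / c) < (p : ℝ) ^ b := pow_unbounded_of_one_lt _ hp1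
  have hpos : 0 < (1 / ε) ^ (1 / c) := by positivity
  refine ⟨(fun k : ℕ => (k : ℚ) / (p : ℚ) ^ a) '' (Set.Iio (p ^ (a + b))),
    (Set.finite_Iio _).image _, ?_⟩
  intro q hq
  have hp0 : (p : ℚ) ≠ 0 := by exact_mod_cast (Fact.out : p.Prime).ne_zero
  have hpR : (p : ℝ) ≠ 0 := by positivity
  have hpa : ‖((p : ℚ_[p]) ^ a)‖ = (p : ℝ) ^ (-(a : ℤ)) := Padic.norm_p_pow a
  -- the integer `p ^ a * q`
  have h1 : ‖((p : ℚ_[p]) ^ a * (q : ℚ_[p]))‖ ≤ 1 := by
    rw [norm_mul, hpa, Padic.eq_padicNorm]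
    calc (p : ℝ) ^ (-(a : ℤ)) * (padicNorm p q : ℝ) ≤ (p : ℝ) ^ (-(a : ℤ)) * (p : ℝ) ^ a := by
          apply mul_le_mul_of_nonneg_left (hq.trans ha) (by positivity)
      _ = 1 := by rw [zpow_neg, zpow_natCast, inv_mul_cancel₀ (by positivity)]
  let x : ℤ_[p] := ⟨(p : ℚ_[p]) ^ a * (q : ℚ_[p]), h1⟩
  refine ⟨(x.appr (a + b) : ℚ) / (p : ℚ) ^ a, ⟨x.appr (a + b), x.appr_lt _, rfl⟩, ?_⟩
  have h2 : ‖x - (x.appr (a + b) : ℤ_[p])‖ ≤ (p : ℝ) ^ (-((a + b : ℕ) : ℤ)) := by
    rw [PadicInt.norm_le_pow_iff_mem_span_pow]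
    exact PadicInt.appr_spec _ _
  have h3 : ‖(p : ℚ_[p]) ^ a * (q : ℚ_[p]) - (x.appr (a + b) : ℚ_[p])‖ ≤
      (p : ℝ) ^ (-((a + b : ℕ) : ℤ)) := h2
  have h4 : (padicNorm p (q - (x.appr (a + b) : ℚ) / (p : ℚ) ^ a) : ℝ) ≤ (p : ℝ) ^ (-(b : ℤ)) := by
    rw [← Padic.eq_padicNorm]
    have hp0' : (p : ℚ_[p]) ≠ 0 := by exact_mod_cast (Fact.out : p.Prime).ne_zero
    have e1 : ((q - (x.appr (a + b) : ℚ) / (p : ℚ) ^ a : ℚ) : ℚ_[p])
        = ((p : ℚ_[p]) ^ a * (q : ℚ_[p]) - (x.appr (a + b) : ℚ_[p])) / (p : ℚ_[p]) ^ a := by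
      push_cast
      field_simp
    rw [e1, norm_div, hpa, div_le_iff₀ (by positivity), ← zpow_add₀ hpR]
    refine h3.trans (le_of_eq ?_)
    congr 1
    push_cast; ring
  have h5 : (padicNorm p (q - (x.appr (a + b) : ℚ) / (p : ℚ) ^ a) : ℝ) ^ c
      ≤ ((p : ℝ) ^ (-(b : ℤ))) ^ c :=
    Real.rpow_le_rpow (by exact_mod_cast padicNorm.nonneg _) h4 hc.le
  refine lt_of_le_of_lt h5 ?_
  have h6 : (p : ℝ) ^ (-(b : ℤ)) < 1 / (1 / ε) ^ (1 / c) := by
    rw [zpow_neg, zpow_natCast, ← one_div]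
    exact one_div_lt_one_div_of_lt hpos hb
  have h7 := Real.rpow_lt_rpow (by positivity) h6 hc
  refine lt_of_lt_of_eq h7 ?_
  rw [Real.div_rpow (by positivity) (by positivity), Real.one_rpow, ← Real.rpow_mul (by positivity),
    one_div_mul_cancel hc.ne', Real.rpow_one]
  simp

/-- Bounded sets of `ℚ` are totally bounded for every nontrivial absolute value. -/
theorem rat_net (f : AbsoluteValue ℚ ℝ) (hf : f.IsNontrivial) (R ε : ℝ) (hε : 0 < ε) :
    ∃ T : Set ℚ, T.Finite ∧ ∀ q : ℚ, f q ≤ R → ∃ t ∈ T, f (q - t) < ε := by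
  rcases Rat.AbsoluteValue.equiv_real_or_padic f hf with h | ⟨p, ⟨hp, h⟩, -⟩
  · obtain ⟨c, hc, hcf⟩ := AbsoluteValue.isEquiv_iff_exists_rpow_eq.1 h
    have hf' : ∀ q, f q = |(q : ℝ)| ^ (1 / c) := by
      intro q
      have h1 : f q ^ c = |(q : ℝ)| := by
        have := congrFun hcf q
        simpa using this
      rw [← h1, ← Real.rpow_mul (f.nonneg _), mul_one_div_cancel hc.ne', Real.rpow_one]
    obtain ⟨T, hT, hT2⟩ := real_net (R ^ c) (1 / c) ε (by positivity) hε
    refine ⟨T, hT, fun q hq => ?_⟩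
    have h1 : |(q : ℝ)| ≤ R ^ c := by
      have h2 : f q ^ c = |(q : ℝ)| := by
        have := congrFun hcf q
        simpa using this
      rw [← h2]
      exact Real.rpow_le_rpow (f.nonneg _) hq hc.le
    obtain ⟨t, ht, ht2⟩ := hT2 q h1
    exact ⟨t, ht, by rw [hf']; exact ht2⟩
  · obtain ⟨c, hc, hcf⟩ := AbsoluteValue.isEquiv_iff_exists_rpow_eq.1 h
    have h2 : ∀ q, f q ^ c = (padicNorm p q : ℝ) := by
      intro q
      have := congrFun hcf q
      simpa using this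
    have hf' : ∀ q, f q = (padicNorm p q : ℝ) ^ (1 / c) := by
      intro q
      rw [← h2, ← Real.rpow_mul (f.nonneg _), mul_one_div_cancel hc.ne', Real.rpow_one]
    obtain ⟨T, hT, hT2⟩ := padic_net p (R ^ c) (1 / c) ε (by positivity) hε
    refine ⟨T, hT, fun q hq => ?_⟩
    have h1 : (padicNorm p q : ℝ) ≤ R ^ c := by
      rw [← h2]
      exact Real.rpow_le_rpow (f.nonneg _) hq hc.le
    obtain ⟨t, ht, ht2⟩ := hT2 q h1
    exact ⟨t, ht, by rw [hf']; exact ht2⟩

section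

variable {L : Type*} [NontriviallyNormedField L] [CompleteSpace L]

/-- The absolute value on `ℚ` induced by an embedding. -/
noncomputable def absQ (ι : ℚ →+* L) : AbsoluteValue ℚ ℝ where
  toFun q := ‖ι q‖
  map_mul' x y := by rw [map_mul, norm_mul]
  nonneg' x := norm_nonneg _
  eq_zero' x := by rw [norm_eq_zero, map_eq_zero]
  add_le' x y := by rw [map_add]; exact norm_add_le _ _

/-- If `σ : K → L` has dense range, with `K` algebraic over `ℚ`, the induced absolute value on `ℚ`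
is nontrivial. -/
theorem absQ_nontrivial {K : Type*} [Field K] [NumberField K] (σ : K →+* L) (hσ : DenseRange σ) :
    (absQ (σ.comp (algebraMap ℚ K))).IsNontrivial := by
  classical
  by_contra hcon
  have htriv : ∀ q : ℚ, q ≠ 0 → ‖σ (algebraMap ℚ K q)‖ = 1 := by
    intro q hq
    by_contra h
    exact hcon ⟨q, hq, h⟩
  have htriv' : ∀ q : ℚ, ‖σ (algebraMap ℚ K q)‖ ≤ 1 := by
    intro q
    by_cases hq : q = 0
    · subst hq; simp
    · exact (htriv q hq).le
  let d := Module.finrank ℚ K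
  -- every element of `K` has norm at most `d`
  have hbound : ∀ x : K, ‖σ x‖ ≤ d := by
    intro x
    have hint : IsIntegral ℚ x := Algebra.IsIntegral.isIntegral x
    let P := minpoly ℚ x
    have hP : P.Monic := minpoly.monic hint
    have hdeg : P.natDegree ≤ d := minpoly.natDegree_le x
    have hdeg0 : 0 < P.natDegree := minpoly.natDegree_pos hint
    by_cases h1 : ‖σ x‖ ≤ 1
    · refine h1.trans ?_
      have : 1 ≤ d := by omega
      exact_mod_cast this
    · push Not at h1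
      have h2 : Polynomial.aeval x P = 0 := minpoly.aeval ℚ x
      rw [Polynomial.aeval_eq_sum_range, Finset.sum_range_succ] at h2
      have h3 : x ^ P.natDegree = -∑ i ∈ Finset.range P.natDegree, P.coeff i • x ^ i := by
        have : P.coeff P.natDegree = 1 := hP
        rw [this, one_smul] at h2
        exact eq_neg_of_add_eq_zero_right h2
      have h4 : ‖σ x‖ ^ P.natDegree ≤ P.natDegree * ‖σ x‖ ^ (P.natDegree - 1) := by
        rw [← norm_pow, ← map_pow, h3, map_neg, norm_neg, map_sum]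
        refine (norm_sum_le _ _).trans ?_
        refine (Finset.sum_le_card_nsmul _ _ (‖σ x‖ ^ (P.natDegree - 1)) ?_).trans ?_
        · intro i hi
          rw [Algebra.smul_def, map_mul, norm_mul, map_pow, norm_pow]
          calc ‖σ (algebraMap ℚ K (P.coeff i))‖ * ‖σ x‖ ^ i ≤ 1 * ‖σ x‖ ^ (P.natDegree - 1) := by
                apply mul_le_mul (htriv' _) _ (by positivity) zero_le_one
                apply pow_le_pow_right₀ h1.le
                have := Finset.mem_range.1 hi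
                omega
            _ = _ := one_mul _
        · simp
      have h5 : ‖σ x‖ ^ P.natDegree = ‖σ x‖ * ‖σ x‖ ^ (P.natDegree - 1) := by
        rw [← pow_succ']; congr 1; omega
      rw [h5] at h4
      have h6 : ‖σ x‖ ≤ P.natDegree := le_of_mul_le_mul_right h4 (by positivity)
      exact h6.trans (by exact_mod_cast hdeg)
  -- hence at most one
  have hone : ∀ x : K, ‖σ x‖ ≤ 1 := by
    intro x
    by_contra h
    push Not at h
    obtain ⟨k, hk⟩ := pow_unbounded_of_one_lt (d : ℝ) h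
    have := hbound (x ^ k)
    rw [map_pow, norm_pow] at this
    linarith
  obtain ⟨c, hc⟩ := NormedField.exists_one_lt_norm L
  have hopen : IsOpen {y : L | 1 < ‖y‖} := isOpen_lt continuous_const continuous_norm
  obtain ⟨x, hx⟩ := hσ.exists_mem_open hopen ⟨c, hc⟩
  exact absurd (hone x) (not_le.2 hx)

/-- A complete field containing a dense number field is locally compact. -/
theorem properSpace {K : Type*} [Field K] [NumberField K] (σ : K →+* L) (hσ : DenseRange σ) :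
    ProperSpace L := by
  classical
  let ι : ℚ →+* L := σ.comp (algebraMap ℚ K)
  obtain ⟨q0, hq0, hq1⟩ := absQ_nontrivial σ hσ
  let L0 : Subfield L := ι.fieldRange.topologicalClosure
  have hL0 : IsClosed (L0 : Set L) := by
    show IsClosed (closure _)
    exact isClosed_closure
  have hι : ∀ q, ι q ∈ L0 := fun q => subset_closure ⟨q, rfl⟩
  let instN : NontriviallyNormedField L0 :=
    NontriviallyNormedField.ofNormNeOne ⟨⟨ι q0, hι q0⟩, by
      intro h
      have := congrArg Subtype.val h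
      simp only [ZeroMemClass.coe_zero] at this
      exact hq0 ((map_eq_zero ι).1 this), hq1⟩
  have hcomp : CompleteSpace L0 := hL0.completeSpace_coe
  -- closed balls are compact
  have hproper : ProperSpace L0 := by
    apply ProperSpace.of_isCompact_closedBall_of_le 0
    intro x r _
    refine TotallyBounded.isCompact_of_isClosed ?_ Metric.isClosed_closedBall
    rw [Metric.totallyBounded_iff]
    intro ε hε
    obtain ⟨T, hT, hT2⟩ := rat_net (absQ ι) ⟨q0, hq0, hq1⟩ (‖x‖ + r + ε) (ε / 2) (by positivity)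
    refine ⟨(fun q => (⟨ι q, hι q⟩ : L0)) '' T, hT.image _, ?_⟩
    intro y hy
    have hy1 : ‖y‖ ≤ ‖x‖ + r := by
      have h1 : ‖y - x‖ ≤ r := by rwa [Metric.mem_closedBall, dist_eq_norm] at hy
      calc ‖y‖ = ‖(y - x) + x‖ := by rw [sub_add_cancel]
        _ ≤ ‖y - x‖ + ‖x‖ := norm_add_le _ _
        _ ≤ ‖x‖ + r := by linarith
    have hy2 : (y : L) ∈ closure (Set.range ι) := by
      have := y.2
      exact this
    rw [Metric.mem_closure_iff] at hy2
    obtain ⟨z, ⟨q, rfl⟩, hq⟩ := hy2 (ε / 2) (by positivity)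
    have h3 : absQ ι q ≤ ‖x‖ + r + ε := by
      show ‖ι q‖ ≤ _
      have h4 : ‖ι q‖ ≤ ‖(y : L)‖ + ‖(y : L) - ι q‖ := by
        have := norm_sub_le (y : L) ((y : L) - ι q)
        rwa [sub_sub_cancel] at this
      rw [dist_eq_norm] at hq
      have h5 : ‖(y : L)‖ = ‖y‖ := rfl
      linarith
    obtain ⟨t, ht, ht2⟩ := hT2 q h3
    rw [Set.mem_iUnion₂]
    refine ⟨⟨ι t, hι t⟩, ⟨t, ht, rfl⟩, ?_⟩
    rw [Metric.mem_ball]
    have h6 : dist y ⟨ι t, hι t⟩ = ‖(y : L) - ι t‖ := by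
      rw [dist_eq_norm]; rfl
    rw [h6]
    have h7 : ‖ι q - ι t‖ < ε / 2 := by
      have : absQ ι (q - t) = ‖ι (q - t)‖ := rfl
      rw [this, map_sub] at ht2
      exact ht2
    rw [dist_eq_norm] at hq
    calc ‖(y : L) - ι t‖ = ‖((y : L) - ι q) + (ι q - ι t)‖ := by rw [sub_add_sub_cancel]
      _ ≤ ‖(y : L) - ι q‖ + ‖ι q - ι t‖ := norm_add_le _ _
      _ < ε := by linarith
  -- `L` is finite over `L0`
  let instA : NormedAlgebra L0 L :=
    { (inferInstance : Algebra L0 L) with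
      norm_smul_le := fun a x => by
        rw [Algebra.smul_def, norm_mul]
        exact le_of_eq rfl }
  let b := Module.finBasis ℚ K
  let W : Submodule L0 L := Submodule.span L0 (Set.range fun i => σ (b i))
  have hWfin : FiniteDimensional L0 W :=
    FiniteDimensional.span_of_finite L0 (Set.finite_range _)
  have hWclosed : IsClosed (W : Set L) := W.closed_of_finiteDimensional
  have hWK : ∀ x : K, σ x ∈ W := by
    intro x
    rw [← b.sum_repr x, map_sum]
    refine Submodule.sum_mem _ fun i _ => ?_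
    have : σ (b.repr x i • b i) = (⟨ι (b.repr x i), hι _⟩ : L0) • σ (b i) := by
      rw [Algebra.smul_def, map_mul, Algebra.smul_def]
      rfl
    rw [this]
    exact Submodule.smul_mem _ _ (Submodule.subset_span ⟨i, rfl⟩)
  have hWtop : W = ⊤ := by
    rw [Submodule.eq_top_iff']
    intro x
    have h1 : closure (Set.range σ) ⊆ (W : Set L) :=
      closure_minimal (by rintro _ ⟨y, rfl⟩; exact hWK y) hWclosed
    exact h1 (hσ x)
  have hfin : FiniteDimensional L0 L := by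
    have h2 : FiniteDimensional L0 (⊤ : Submodule L0 L) := by
      rw [← hWtop]; exact hWfin
    exact Module.Finite.equiv (Submodule.topEquiv (R := L0) (M := L))
  exact FiniteDimensional.proper L0 L

end

end Pool.Agent.MazurC
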