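import Mathlib
import Pool.Agent.MazurC.Proper
import Pool.Agent.MazurC.Cubic
import Pool.Agent.MazurC.Def

/-!
Local Zariski closures on cubic hypersurfaces.
-/

namespace Pool.Agent.MazurC

open MvPolynomial Topology

section Gen

theorem eval_smul_hom {R : Type*} [CommRing R] {ι : Type*} {d : ℕ} {P : MvPolynomial ι R}
    (hP : P.IsHomogeneous d) (c : R) (y : ι → R) : eval (c • y) P = c ^ d * eval y P := by
  classical
  rw [eval_eq, eval_eq, Finset.mul_sum]
  refine Finset.sum_congr rfl fun e he => ?_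
  have h1 : e.degree = d := by
    have := hP (mem_support_iff.1 he)
    rw [Finsupp.degree_eq_weight_one]
    exact this
  have h2 : ∏ i ∈ e.support, ((c • y) i) ^ e i = c ^ d * ∏ i ∈ e.support, y i ^ e i := by
    simp_rw [Pi.smul_apply, smul_eq_mul, mul_pow]
    rw [Finset.prod_mul_distrib, Finset.prod_pow_eq_pow_sum]
    congr 2
  rw [h2]; ring

theorem eval_aeval' {R : Type*} [CommRing R] {ι κ : Type*} (g : κ → MvPolynomial ι R) (x : ι → R)
    (P : MvPolynomial κ R) : eval x (aeval g P) = eval (fun k => eval x (g k)) P := by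
  induction P using MvPolynomial.induction_on with
  | C a => simp
  | add p q hp hq => rw [map_add, map_add, hp, hq, map_add]
  | mul_X p i hp => rw [map_mul, map_mul, hp, map_mul, aeval_X, eval_X]

/-- A polynomial vanishing on a line through the origin has all its homogeneous components
vanishing there. -/
theorem component_eval_eq_zero {K : Type*} [Field K] [Infinite K] {ι : Type*}
    (f : MvPolynomial ι K) (y : ι → K) (h : ∀ t : K, eval (t • y) f = 0) (d : ℕ) :
    eval y (homogeneousComponent d f) = 0 := by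
  classical
  let p : Polynomial K := ∑ i ∈ Finset.range (f.totalDegree + 1),
    Polynomial.C (eval y (homogeneousComponent i f)) * Polynomial.X ^ i
  have hp : p = 0 := by
    apply Polynomial.funext
    intro t
    rw [Polynomial.eval_zero, ← h t]
    conv_rhs => rw [← sum_homogeneousComponent f]
    rw [map_sum, Polynomial.eval_finsetSum]
    refine Finset.sum_congr rfl fun i _ => ?_
    rw [eval_smul_hom (homogeneousComponent_isHomogeneous i f)]
    simp only [Polynomial.eval_mul, Polynomial.eval_C, Polynomial.eval_pow, Polynomial.eval_X]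
    ring
  by_cases hd : d < f.totalDegree + 1
  · have h1 : p.coeff d = eval y (homogeneousComponent d f) := by
      simp only [p, Polynomial.finsetSum_coeff, Polynomial.coeff_C_mul, Polynomial.coeff_X_pow]
      rw [Finset.sum_eq_single d]
      · simp
      · intro b _ hb; simp [Ne.symm hb]
      · intro hd'; exact absurd (Finset.mem_range.2 hd) hd'
    rw [← h1, hp, Polynomial.coeff_zero]
  · rw [homogeneousComponent_eq_zero _ _ (by omega), map_zero]

end Gen

section Main

variable {K : Type} [Field K] {L : Type} [NontriviallyNormedField L] (σ : K →+* L) {n : ℕ}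

/-- The vector over `L` defined by a vector over `K`. -/
def sv (y : Fin n → K) : Fin n → L := fun i => σ (y i)

theorem sv_smul (c : K) (y : Fin n → K) : sv σ (c • y) = σ c • sv σ y := by
  funext i; simp [sv]

theorem sv_eq_zero {y : Fin n → K} : sv σ y = 0 ↔ y = 0 := by
  constructor
  · intro h
    funext i
    have := congrFun h i
    simpa [sv] using this
  · rintro rfl; funext i; simp [sv]

/-- The tensor over `L`. -/
def tm (t : Fin n → Fin n → Fin n → K) : Fin n → Fin n → Fin n → L := fun i j k => σ (t i j k)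

/-- The rational point `y` lies, projectively, in `U`. -/
def Near (U : Set (Fin n → L)) (y : Fin n → K) : Prop := ∃ c : L, c ≠ 0 ∧ c • sv σ y ∈ U

variable {σ} in
theorem Near.mono {U V : Set (Fin n → L)} (h : U ⊆ V) {y : Fin n → K} (hy : Near σ U y) :
    Near σ V y := by
  obtain ⟨c, hc, hc2⟩ := hy
  exact ⟨c, hc, h hc2⟩

/-- Points at which the rational points of the hypersurface accumulate Zariski densely. -/
def Om (t : Fin n → Fin n → Fin n → K) (F : MvPolynomial (Fin n) K) (x : Fin n → L) : Prop :=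
  x ≠ 0 ∧ B (tm σ t) x x x = 0 ∧
    ∀ (e : ℕ) (f : MvPolynomial (Fin n) K), f.IsHomogeneous e → ∀ U ∈ 𝓝 x,
      (∀ y : Fin n → K, y ≠ 0 → eval y F = 0 → Near σ U y → eval y f = 0) → F ∣ f

variable {σ} in
theorem Om.smul {t : Fin n → Fin n → Fin n → K} {F : MvPolynomial (Fin n) K} {x : Fin n → L}
    (h : Om σ t F x) {c : L} (hc : c ≠ 0) : Om σ t F (c • x) := by
  obtain ⟨h1, h2, h3⟩ := h
  refine ⟨smul_ne_zero hc h1, ?_, ?_⟩
  · have : B (tm σ t) (c • x) (c • x) (c • x)
        = c ^ 3 * B (tm σ t) x x x := by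
      simp only [B, Pi.smul_apply, smul_eq_mul, Finset.mul_sum]
      refine Finset.sum_congr rfl fun i _ => Finset.sum_congr rfl fun j _ =>
        Finset.sum_congr rfl fun k _ => ?_
      ring
    rw [this, h2, mul_zero]
  · intro e f hf U hU hfU
    have hcont : Continuous fun z : Fin n → L => c • z := continuous_const_smul c
    refine h3 e f hf ((fun z : Fin n → L => c • z) ⁻¹' U) (hcont.continuousAt hU) ?_
    intro y hy hFy hnear
    apply hfU y hy hFy
    obtain ⟨d, hd, hd2⟩ := hnear
    refine ⟨c * d, mul_ne_zero hc hd, ?_⟩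
    rw [mul_smul]
    exact hd2

variable (t : Fin n → Fin n → Fin n → K)

/-- The linear form `B P P`. -/
noncomputable def lin (P : Fin n → K) : MvPolynomial (Fin n) K :=
  ∑ i, ∑ j, ∑ k, C (t i j k * P i * P j) * X k

/-- The quadratic form `y ↦ B y y P`. -/
noncomputable def quad (P : Fin n → K) : MvPolynomial (Fin n) K :=
  ∑ i, ∑ j, ∑ k, C (t i j k * P k) * X i * X j

theorem lin_hom (P : Fin n → K) : (lin t P).IsHomogeneous 1 :=
  IsHomogeneous.sum _ _ _ fun i _ => IsHomogeneous.sum _ _ _ fun j _ =>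
    IsHomogeneous.sum _ _ _ fun k _ => isHomogeneous_C_mul_X _ _

theorem quad_hom (P : Fin n → K) : (quad t P).IsHomogeneous 2 :=
  IsHomogeneous.sum _ _ _ fun i _ => IsHomogeneous.sum _ _ _ fun j _ =>
    IsHomogeneous.sum _ _ _ fun k _ => by
      have := (isHomogeneous_C_mul_X (t i j k * P k) i).mul (isHomogeneous_X K j)
      simpa using this

theorem eval_lin (P y : Fin n → K) : eval y (lin t P) = B t P P y := by
  simp only [lin, B, map_sum, map_mul, eval_C, eval_X]

theorem eval_quad (P y : Fin n → K) : eval y (quad t P) = B t y y P := by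
  simp only [quad, B, map_sum, map_mul, eval_C, eval_X]
  refine Finset.sum_congr rfl fun i _ => Finset.sum_congr rfl fun j _ =>
    Finset.sum_congr rfl fun k _ => ?_
  ring

/-- The coordinates of `Phi` as polynomials. -/
noncomputable def phiPoly (P : Fin n → K) (i : Fin n) : MvPolynomial (Fin n) K :=
  quad t P * C (P i) - lin t P * X i

theorem phiPoly_hom (P : Fin n → K) (i : Fin n) : (phiPoly t P i).IsHomogeneous 2 := by
  refine IsHomogeneous.sub ?_ ?_
  · have := (quad_hom t P).mul (isHomogeneous_C (Fin n) (P i))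
    simpa using this
  · exact (lin_hom t P).mul (isHomogeneous_X K i)

theorem eval_phiPoly (P y : Fin n → K) (i : Fin n) : eval y (phiPoly t P i) = Phi t P y i := by
  simp only [phiPoly, map_sub, map_mul, eval_quad, eval_lin, eval_C, eval_X, Phi, Pi.add_apply,
    Pi.smul_apply, smul_eq_mul]
  ring

variable {t}

/-- The algebraic part: the third point map is dominant. -/
theorem dvd_of_comp (ht : Sym t) {F : MvPolynomial (Fin n) K}
    (hFt : ∀ y : Fin n → K, eval y F = B t y y y) (hF : F.IsHomogeneous 3) (hirr : Irreducible F)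
    (hdens : ∀ f : MvPolynomial (Fin n) K, (∀ y : Fin n → K, y ≠ 0 → eval y F = 0 →
      eval y f = 0) → F ∣ f)
    {P : Fin n → K} (hP : B t P P P = 0) (hPns : ∃ w, B t P P w ≠ 0)
    {e : ℕ} {f : MvPolynomial (Fin n) K} (hf : f.IsHomogeneous e)
    (h : F ∣ aeval (phiPoly t P) f) : F ∣ f := by
  have h0 : ∀ y : Fin n → K, eval y F = 0 → eval (Phi t P y) f = 0 := by
    intro y hy
    obtain ⟨g, hg⟩ := h
    have h1 := congrArg (eval y) hg
    rw [eval_aeval', map_mul, hy, zero_mul] at h1
    have h2 : (fun k => eval y (phiPoly t P k)) = Phi t P y := by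
      funext i; exact eval_phiPoly t P y i
    rwa [h2] at h1
  have h1 : F ∣ lin t P * f := by
    apply hdens
    intro y _ hFy
    rw [map_mul, eval_lin]
    have h2 : eval (Phi t P y) F = 0 := by
      rw [hFt]; rw [hFt] at hFy
      exact B_Phi_zero ht P y hP hFy
    have h3 := h0 _ h2
    rw [Phi_Phi ht P y hP, eval_smul_hom hf] at h3
    rcases mul_eq_zero.1 h3 with h4 | h4
    · have h6 : -(B t P P y) ^ 3 = 0 := by
        by_contra hne
        exact (pow_ne_zero e hne) h4
      rw [neg_eq_zero] at h6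
      rw [pow_eq_zero_iff (by norm_num)] at h6
      rw [h6, zero_mul]
    · rw [h4, mul_zero]
  rcases hirr.prime.dvd_or_dvd h1 with h2 | h2
  · exfalso
    obtain ⟨w, hw⟩ := hPns
    have h3 : lin t P ≠ 0 := by
      intro h4
      rw [← eval_lin, h4, map_zero] at hw
      exact hw rfl
    have h4 : F.totalDegree ≤ (lin t P).totalDegree := by
      obtain ⟨g, hg⟩ := h2
      rw [hg]
      have hF0 : F ≠ 0 := hirr.ne_zero
      have hg0 : g ≠ 0 := by rintro rfl; rw [mul_zero] at hg; exact h3 hg
      rw [totalDegree_mul_of_isDomain hF0 hg0]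
      omega
    rw [hF.totalDegree hirr.ne_zero, (lin_hom t P).totalDegree h3] at h4
    omega
  · exact h2

theorem continuous_Phi (τ : Fin n → Fin n → Fin n → L) :
    Continuous fun p : (Fin n → L) × (Fin n → L) => Phi τ p.1 p.2 := by
  unfold Phi B
  fun_prop

theorem sv_Phi (a b : Fin n → K) :
    sv σ (Phi t a b) = Phi (tm σ t) (sv σ a) (sv σ b) := map_Phi σ a b

theorem sym_map (ht : Sym t) : Sym (tm σ t) :=
  ⟨fun i j k => congrArg σ (ht.1 i j k), fun i j k => congrArg σ (ht.2 i j k)⟩

/-- Standing hypotheses on a cubic form `F` with symmetric tensor `t`. -/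
structure Cub (t : Fin n → Fin n → Fin n → K) (F : MvPolynomial (Fin n) K) : Prop where
  ht : Sym t
  hFp : F = ∑ i, ∑ j, ∑ k, C (t i j k) * X i * X j * X k
  hF : F.IsHomogeneous 3
  hirr : Irreducible F
  hdens : ∀ f : MvPolynomial (Fin n) K, (∀ y : Fin n → K, y ≠ 0 → eval y F = 0 →
      eval y f = 0) → F ∣ f
  hns : ∀ x : Fin n → L, x ≠ 0 → B (tm σ t) x x x = 0 →
    ∃ w, B (tm σ t) x x w ≠ 0

variable {σ}

theorem Cub.hFt {F : MvPolynomial (Fin n) K} (H : Cub σ t F) (y : Fin n → K) :
    eval y F = B t y y y := by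
  conv_lhs => rw [H.hFp]
  simp only [B, map_sum, map_mul, eval_C, eval_X]

theorem Cub.hFL {F : MvPolynomial (Fin n) K} (H : Cub σ t F) (z : Fin n → L) :
    eval₂ σ z F = B (tm σ t) z z z := by
  conv_lhs => rw [H.hFp]
  simp only [B, eval₂_sum, eval₂_mul, eval₂_C, eval₂_X, tm]

theorem exists_rational {F : MvPolynomial (Fin n) K} {x : Fin n → L} (hirr : Irreducible F)
    (hx : Om σ t F x) {U : Set (Fin n → L)} (hU : U ∈ 𝓝 x) :
    ∃ y : Fin n → K, y ≠ 0 ∧ eval y F = 0 ∧ Near σ U y := by
  by_contra hcon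
  push Not at hcon
  have := hx.2.2 0 1 (isHomogeneous_one _ _) U hU (fun y hy hFy hn => absurd hn (hcon y hy hFy))
  exact hirr.not_isUnit (isUnit_of_dvd_one this)

theorem B_sv_zero {P : Fin n → K} (hPB : B t P P P = 0) :
    B (tm σ t) (sv σ P) (sv σ P) (sv σ P) = 0 := by
  have h : σ (B t P P P) = B (tm σ t) (sv σ P) (sv σ P) (sv σ P) := map_B σ P P P
  rw [← h, hPB, map_zero]

theorem B_sv (a b c : Fin n → K) :
    B (tm σ t) (sv σ a) (sv σ b) (sv σ c) = σ (B t a b c) := (map_B σ a b c).symm

theorem Phi_ne_zero_of {τ : Fin n → Fin n → Fin n → L} (hsym : Sym τ) (a z : Fin n → L)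
    (hz : B τ z z a ≠ 0) (hz2 : B τ z z z = 0) : Phi τ a z ≠ 0 := by
  intro h0
  have h1 : B τ z z (Phi τ a z) = (B τ z z a) ^ 2 := by
    rw [Phi, B_add_right hsym, B_smul_right hsym, B_smul_right hsym, hz2]
    ring
  rw [h0] at h1
  have h2 : B τ z z 0 = 0 := by simp [B]
  rw [h2] at h1
  exact hz (pow_eq_zero_iff (by norm_num) |>.1 h1.symm)

theorem nhds_Phi (τ : Fin n → Fin n → Fin n → L) (a z : Fin n → L) (h1 : Phi τ a z ≠ 0)
    {U : Set (Fin n → L)} (hU : U ∈ 𝓝 (Phi τ a z)) :
    {w | Phi τ a w ∈ U ∧ Phi τ a w ≠ 0} ∈ 𝓝 z := by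
  have hcont1 : Continuous fun z : Fin n → L => Phi τ a z := by
    unfold Phi B
    fun_prop
  have h2 : {w : Fin n → L | w ≠ 0} ∈ 𝓝 (Phi τ a z) := isOpen_ne.mem_nhds h1
  exact hcont1.continuousAt.preimage_mem_nhds (Filter.inter_mem hU h2)

/-- If `Q ↦ Phi (P, Q)` maps a neighbourhood of `x0 ∈ Om` into `U`, then every form vanishing at
the rational points near `U` is divisible by `F`. -/
theorem dvd_of_map {F : MvPolynomial (Fin n) K} (H : Cub σ t F) {x0 : Fin n → L}
    (hx0 : Om σ t F x0) {P : Fin n → K} (hP0 : P ≠ 0) (hP : eval P F = 0)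
    {V : Set (Fin n → L)} (hV : V ∈ 𝓝 x0) {U : Set (Fin n → L)}
    (hVU : ∀ z ∈ V, ∃ c : L, c ≠ 0 ∧
      c • Phi (tm σ t) (sv σ P) z ∈ U ∧
      Phi (tm σ t) (sv σ P) z ≠ 0)
    {e : ℕ} {f : MvPolynomial (Fin n) K} (hf : f.IsHomogeneous e)
    (hfU : ∀ y : Fin n → K, y ≠ 0 → eval y F = 0 → Near σ U y → eval y f = 0) : F ∣ f := by
  have hPB : B t P P P = 0 := by rw [← H.hFt]; exact hP
  have hsP : sv σ P ≠ 0 := fun h => hP0 ((sv_eq_zero σ).1 h)
  have hPBL := B_sv_zero (σ := σ) hPB
  have hPns : ∃ w, B t P P w ≠ 0 := by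
    by_contra hcon
    push Not at hcon
    obtain ⟨w, hw⟩ := H.hns _ hsP hPBL
    apply hw
    have h1 : ∀ k, ∑ i, ∑ j, t i j k * P i * P j = 0 := by
      intro k
      have := hcon (Pi.single k 1)
      simp only [B] at this
      rw [← this]
      refine Finset.sum_congr rfl fun i _ => Finset.sum_congr rfl fun j _ => ?_
      rw [Finset.sum_eq_single k]
      · simp
      · intro b _ hb; simp [hb]
      · simp
    have h2 : B (tm σ t) (sv σ P) (sv σ P) w
        = ∑ k, σ (∑ i, ∑ j, t i j k * P i * P j) * w k := by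
      simp only [B]
      rw [Finset.sum_congr rfl (fun i _ => Finset.sum_comm), Finset.sum_comm]
      refine Finset.sum_congr rfl fun k _ => ?_
      simp only [map_sum, map_mul, Finset.sum_mul, sv, tm]
    rw [h2]
    simp [h1]
  apply dvd_of_comp H.ht H.hFt H.hF H.hirr H.hdens hPB hPns hf
  have hcomp : (aeval (phiPoly t P) f).IsHomogeneous (2 * e) := hf.aeval _ (phiPoly_hom t P)
  refine hx0.2.2 (2 * e) _ hcomp V hV ?_
  intro y hy hFy ⟨c, hc, hcV⟩
  obtain ⟨d, hd, hdU, hne⟩ := hVU _ hcV
  rw [eval_aeval']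
  have h2 : (fun k => eval y (phiPoly t P k)) = Phi t P y := by
    funext i; exact eval_phiPoly t P y i
  rw [h2]
  have h3 : Phi (tm σ t) (sv σ P) (c • sv σ y) = c ^ 2 • sv σ (Phi t P y) := by
    rw [Phi_smul_right (sym_map σ H.ht), sv_Phi]
  rw [h3] at hdU hne
  apply hfU
  · intro h0
    rw [h0, (sv_eq_zero σ).2 rfl, smul_zero] at hne
    exact hne rfl
  · rw [H.hFt]
    apply B_Phi_zero H.ht _ _ hPB
    rw [← H.hFt]; exact hFy
  · exact ⟨d * c ^ 2, mul_ne_zero hd (pow_ne_zero _ hc), by rw [mul_smul]; exact hdU⟩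

/-- Transport of `Om` by the third point map. -/
theorem om_transport {F : MvPolynomial (Fin n) K} (H : Cub σ t F) {x0 : Fin n → L}
    (hx0 : Om σ t F x0) {P : Fin n → K} (hP0 : P ≠ 0) (hP : eval P F = 0)
    (hne : B (tm σ t) x0 x0 (sv σ P) ≠ 0) :
    Om σ t F (Phi (tm σ t) (sv σ P) x0) := by
  have hPB : B t P P P = 0 := by rw [← H.hFt]; exact hP
  have hPBL := B_sv_zero (σ := σ) hPB
  have h1 := Phi_ne_zero_of (sym_map (σ := σ) H.ht) (sv σ P) x0 hne hx0.2.1
  refine ⟨h1, B_Phi_zero (sym_map (σ := σ) H.ht) _ _ hPBL hx0.2.1, ?_⟩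
  intro e f hf U hU hfU
  have hV := nhds_Phi (tm σ t) (sv σ P) x0 h1 hU
  exact dvd_of_map H hx0 hP0 hP hV (U := U)
    (fun z hz => ⟨1, one_ne_zero, by rw [one_smul]; exact hz.1, hz.2⟩) hf hfU

/-- Coefficientwise image of a polynomial under a linear functional. -/
noncomputable def mapFun (lam : L → K) (h : MvPolynomial (Fin n) L) : MvPolynomial (Fin n) K :=
  ∑ m ∈ h.support, monomial m (lam (coeff m h))

/-- A polynomial over `L` vanishing at the rational points of the hypersurface vanishes at all its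
`L`-points. -/
theorem vanish_L {F : MvPolynomial (Fin n) K} (H : Cub σ t F) (h : MvPolynomial (Fin n) L)
    (hv : ∀ y : Fin n → K, y ≠ 0 → eval y F = 0 → eval (sv σ y) h = 0) (z : Fin n → L)
    (hz : B (tm σ t) z z z = 0) : eval z h = 0 := by
  classical
  let _ : Algebra K L := σ.toAlgebra
  let b := Module.Basis.ofVectorSpace K L
  have hzF : eval₂ σ z F = 0 := by rw [H.hFL, hz]
  have h1 : ∀ j, eval₂ σ z (mapFun (fun a => b.repr a j) h) = 0 := by
    intro j
    have h2 : F ∣ mapFun (fun a => b.repr a j) h := by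
      apply H.hdens
      intro y hy hFy
      have h3 := hv y hy hFy
      have h4 : eval y (mapFun (fun a => b.repr a j) h) = b.repr (eval (sv σ y) h) j := by
        rw [mapFun, map_sum, eval_eq, map_sum, Finsupp.finset_sum_apply]
        refine Finset.sum_congr rfl fun m _ => ?_
        rw [eval_monomial, Finsupp.prod]
        have h5 : coeff m h * ∏ i ∈ m.support, (sv σ y i) ^ m i
            = (∏ i ∈ m.support, y i ^ m i) • coeff m h := by
          rw [Algebra.smul_def]
          have : (algebraMap K L) (∏ i ∈ m.support, y i ^ m i)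
              = ∏ i ∈ m.support, (sv σ y i) ^ m i := by
            show σ _ = _
            rw [map_prod]
            simp only [map_pow, sv]
          rw [this, mul_comm]
        rw [h5, map_smul, Finsupp.smul_apply, smul_eq_mul, mul_comm]
      rw [h4, h3, map_zero, Finsupp.zero_apply]
    obtain ⟨g, hg⟩ := h2
    rw [hg, eval₂_mul, hzF, zero_mul]
  -- reconstruct
  let J : Finset _ := h.support.biUnion fun m => (b.repr (coeff m h)).support
  have h6 : eval z h = ∑ j ∈ J, b j * eval₂ σ z (mapFun (fun a => b.repr a j) h) := by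
    have h7 : ∀ j, eval₂ σ z (mapFun (fun a => b.repr a j) h)
        = ∑ m ∈ h.support, σ (b.repr (coeff m h) j) * ∏ i ∈ m.support, z i ^ m i := by
      intro j
      rw [mapFun, eval₂_sum]
      refine Finset.sum_congr rfl fun m _ => ?_
      rw [eval₂_monomial, Finsupp.prod]
    simp_rw [h7, Finset.mul_sum]
    rw [Finset.sum_comm, eval_eq]
    refine Finset.sum_congr rfl fun m hm => ?_
    have h8 : coeff m h = ∑ j ∈ J, b j * σ (b.repr (coeff m h) j) := by
      conv_lhs => rw [← b.linearCombination_repr (coeff m h)]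
      rw [Finsupp.linearCombination_apply, Finsupp.sum_of_support_subset (s := J)]
      · refine Finset.sum_congr rfl fun j _ => ?_
        rw [Algebra.smul_def, mul_comm]; rfl
      · intro j hj
        exact Finset.mem_biUnion.2 ⟨m, hm, hj⟩
      · intro i _; simp
    conv_lhs => rw [h8]
    rw [Finset.sum_mul]
    refine Finset.sum_congr rfl fun j _ => ?_
    ring
  rw [h6]
  refine Finset.sum_eq_zero fun j _ => ?_
  rw [h1 j, mul_zero]

end Main

end Pool.Agent.MazurC
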