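import Mathlib
import Pool.Agent.MazurC.CubicMain

/-!
Local Zariski closures on cubic hypersurfaces: end of the proof.
-/

namespace Pool.Agent.MazurC

open MvPolynomial Topology

section End

variable {K : Type} [Field K] {L : Type} [NontriviallyNormedField L] {σ : K →+* L} {n : ℕ}
  {t : Fin n → Fin n → Fin n → K}

theorem exists_om [ProperSpace L] {F : MvPolynomial (Fin n) K} (H : Cub σ t F) :
    ∃ x, Om σ t F x := by
  classical
  by_contra hcon
  push Not at hcon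
  obtain ⟨c0, hc0⟩ := NormedField.exists_one_lt_norm L
  let S : Set (Fin n → L) := {x | B (tm σ t) x x x = 0 ∧ 1 ≤ ‖x‖ ∧ ‖x‖ ≤ ‖c0‖}
  have hS : IsCompact S := by
    refine (isCompact_closedBall (0 : Fin n → L) ‖c0‖).of_isClosed_subset ?_ ?_
    · refine IsClosed.inter ?_ (IsClosed.inter ?_ ?_)
      · exact isClosed_eq (by unfold B; fun_prop) continuous_const
      · exact isClosed_le continuous_const continuous_norm
      · exact isClosed_le continuous_norm continuous_const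
    · intro x hx
      rw [mem_closedBall_zero_iff]
      exact hx.2.2
  have key : ∃ f : MvPolynomial (Fin n) K, ¬ F ∣ f ∧ ∀ y : Fin n → K, y ≠ 0 → eval y F = 0 →
      Near σ S y → eval y f = 0 := by
    refine IsCompact.induction_on (p := fun s => ∃ f : MvPolynomial (Fin n) K, ¬ F ∣ f ∧
      ∀ y : Fin n → K, y ≠ 0 → eval y F = 0 → Near σ s y → eval y f = 0) hS ?_ ?_ ?_ ?_
    · refine ⟨1, fun h => H.hirr.not_isUnit (isUnit_of_dvd_one h), ?_⟩
      rintro y _ _ ⟨c, _, hc⟩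
      exact absurd hc (Set.notMem_empty _)
    · rintro s s' hss ⟨f, h1, h2⟩
      exact ⟨f, h1, fun y hy hF hn => h2 y hy hF (hn.mono hss)⟩
    · rintro s s' ⟨f, h1, h2⟩ ⟨f', h1', h2'⟩
      refine ⟨f * f', fun h => ?_, ?_⟩
      · rcases H.hirr.prime.dvd_or_dvd h with h | h
        · exact h1 h
        · exact h1' h
      · rintro y hy hF ⟨c, hc, hcs⟩
        rw [map_mul]
        rcases hcs with hcs | hcs
        · rw [h2 y hy hF ⟨c, hc, hcs⟩, zero_mul]
        · rw [h2' y hy hF ⟨c, hc, hcs⟩, mul_zero]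
    · intro x hx
      have hx0 : x ≠ 0 := by
        rintro rfl
        have := hx.2.1
        rw [norm_zero] at this
        linarith
      have h1 := hcon x
      simp only [Om, not_and, not_forall] at h1
      obtain ⟨e, f, hf, U, hU, h2, h3⟩ := h1 hx0 hx.1
      exact ⟨U, mem_nhdsWithin_of_mem_nhds hU, f, h3, h2⟩
  obtain ⟨f, h1, h2⟩ := key
  apply h1
  apply H.hdens
  intro y hy hF
  apply h2 y hy hF
  have hsy : sv σ y ≠ 0 := fun h => hy ((sv_eq_zero σ).1 h)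
  have hc0' : 0 < ‖c0‖ := by linarith
  obtain ⟨d, hd, hd1, hd2, -⟩ := rescale_to_shell hc0 hc0' hsy
  rw [div_self hc0'.ne'] at hd2
  refine ⟨d, hd, ?_, hd2, hd1.le⟩
  have h3 : B (tm σ t) (sv σ y) (sv σ y) (sv σ y) = 0 := B_sv_zero (by rw [← H.hFt]; exact hF)
  rw [B_smul_left, B_smul_mid (sym_map (σ := σ) H.ht), B_smul_right (sym_map (σ := σ) H.ht), h3]
  ring

theorem Cub.ns_K {F : MvPolynomial (Fin n) K} (H : Cub σ t F) {P : Fin n → K} (hP0 : P ≠ 0)
    (hP : eval P F = 0) : ∃ w, B t P P w ≠ 0 := by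
  have hPB : B t P P P = 0 := by rw [← H.hFt]; exact hP
  have hsP : sv σ P ≠ 0 := fun h => hP0 ((sv_eq_zero σ).1 h)
  have hPBL := B_sv_zero (σ := σ) hPB
  by_contra hcon
  push Not at hcon
  obtain ⟨w, hw⟩ := H.hns _ hsP hPBL
  apply hw
  have h1 : ∀ k, ∑ i, ∑ j, t i j k * P i * P j = 0 := by
    intro k
    have := hcon (Pi.single k 1)
    simp only [B] at this
    rw [← this]
    refine Finset.sum_congr rfl fun i _ => Finset.sum_congr rfl fun j _ => ?_
    rw [Finset.sum_eq_single k]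
    · simp
    · intro b _ hb; simp [hb]
    · simp
  have h2 : B (tm σ t) (sv σ P) (sv σ P) w
      = ∑ k, σ (∑ i, ∑ j, t i j k * P i * P j) * w k := by
    simp only [B]
    rw [Finset.sum_congr rfl (fun i _ => Finset.sum_comm), Finset.sum_comm]
    refine Finset.sum_congr rfl fun k _ => ?_
    simp only [map_sum, map_mul, Finset.sum_mul, sv, tm]
  rw [h2]
  simp [h1]

theorem not_dvd_of_lt {F g : MvPolynomial (Fin n) K} {d : ℕ} (hF : F.IsHomogeneous 3)
    (hF0 : F ≠ 0) (hg : g.IsHomogeneous d) (hg0 : g ≠ 0) (hd : d < 3) : ¬ F ∣ g := by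
  rintro ⟨q, rfl⟩
  have hq0 : q ≠ 0 := by rintro rfl; exact hg0 (mul_zero _)
  have h1 := hg.totalDegree hg0
  rw [totalDegree_mul_of_isDomain hF0 hq0, hF.totalDegree hF0] at h1
  omega

theorem quad_ne_zero [CharZero K] (ht : Sym t) {R : Fin n → K} (hR : B t R R R = 0)
    (hns : ∃ w, B t R R w ≠ 0) : quad t R ≠ 0 := by
  intro h
  obtain ⟨w, hw⟩ := hns
  have h1 : ∀ y, B t y y R = 0 := by
    intro y
    rw [← eval_quad, h, map_zero]
  have h2 := h1 (R + w)
  have h3 := h1 w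
  have e1 : B t R w R = B t R R w := by rw [B_swap23 ht]
  have e2 : B t w R R = B t R R w := by rw [B_swap12 ht, B_swap23 ht]
  rw [B_add_left, B_add_mid ht, B_add_mid ht, hR, h3, e1, e2] at h2
  have h4 : (2 : K) * B t R R w = 0 := by
    rw [← h2]; ring
  rcases mul_eq_zero.1 h4 with h5 | h5
  · norm_num at h5
  · exact hw h5

theorem exists_good [CharZero K] {F : MvPolynomial (Fin n) K} (H : Cub σ t F) {x1 : Fin n → L}
    (hx1 : Om σ t F x1) {R : Fin n → K} (hR0 : R ≠ 0) (hR : eval R F = 0) :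
    ∃ P : Fin n → K, P ≠ 0 ∧ eval P F = 0 ∧ B (tm σ t) x1 x1 (sv σ P) ≠ 0 ∧
      B (tm σ t) (Phi (tm σ t) (sv σ P) x1) (Phi (tm σ t) (sv σ P) x1) (sv σ R) ≠ 0 := by
  classical
  by_contra hcon
  push Not at hcon
  have hsym := sym_map (σ := σ) H.ht
  have hRB : B t R R R = 0 := by rw [← H.hFt]; exact hR
  let h : MvPolynomial (Fin n) L :=
    lin (tm σ t) x1 * aeval (phiPoly (tm σ t) x1) (quad (tm σ t) (sv σ R))
  have hev : ∀ z, eval z h = B (tm σ t) x1 x1 z *
      B (tm σ t) (Phi (tm σ t) x1 z) (Phi (tm σ t) x1 z) (sv σ R) := by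
    intro z
    have h2 : (fun k => eval z (phiPoly (tm σ t) x1 k)) = Phi (tm σ t) x1 z := by
      funext i; exact eval_phiPoly (tm σ t) x1 z i
    rw [map_mul, eval_lin, eval_aeval', h2, eval_quad]
  have hneg : ∀ a b : Fin n → L, B (tm σ t) (-a) (-a) b = B (tm σ t) a a b := by
    intro a b
    have e : -a = (-1 : L) • a := by simp
    rw [e, B_smul_left, B_smul_mid hsym]
    ring
  have hv : ∀ z : Fin n → L, B (tm σ t) z z z = 0 → eval z h = 0 := by
    apply vanish_L H h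
    intro y hy hF
    rw [hev]
    by_cases h1 : B (tm σ t) x1 x1 (sv σ y) = 0
    · rw [h1, zero_mul]
    · have h2 := hcon y hy hF h1
      rw [Phi_swap, hneg] at h2
      rw [h2, mul_zero]
  -- the linear form
  obtain ⟨w, hw⟩ := H.hns x1 hx1.1 hx1.2.1
  let _ : Algebra K L := σ.toAlgebra
  let b := Module.Basis.ofVectorSpace K L
  let l : Fin n → L := fun k => ∑ i, ∑ j, tm σ t i j k * x1 i * x1 j
  have hl : ∀ z, B (tm σ t) x1 x1 z = ∑ k, l k * z k := by
    intro z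
    simp only [B, l]
    rw [Finset.sum_congr rfl (fun i _ => Finset.sum_comm), Finset.sum_comm]
    refine Finset.sum_congr rfl fun k _ => ?_
    simp only [Finset.sum_mul]
  obtain ⟨k, hk⟩ : ∃ k, l k ≠ 0 := by
    by_contra hcon2
    push Not at hcon2
    apply hw
    rw [hl]
    simp [hcon2]
  obtain ⟨j, hj⟩ : ∃ j, b.repr (l k) j ≠ 0 := by
    by_contra hcon2
    push Not at hcon2
    apply hk
    have : b.repr (l k) = 0 := by
      ext j; simpa using hcon2 j
    simpa using this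
  let M : MvPolynomial (Fin n) K := ∑ k, C (b.repr (l k) j) * X k
  have hM : M.IsHomogeneous 1 :=
    IsHomogeneous.sum _ _ _ fun i _ => isHomogeneous_C_mul_X _ _
  have hMev : ∀ y, eval y M = b.repr (B (tm σ t) x1 x1 (sv σ y)) j := by
    intro y
    rw [hl]
    simp only [M, map_sum, map_mul, eval_C, eval_X, Finsupp.finsetSum_apply]
    refine Finset.sum_congr rfl fun k _ => ?_
    have : l k * sv σ y k = y k • l k := by
      rw [Algebra.smul_def, mul_comm]; rfl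
    rw [this, map_smul, Finsupp.smul_apply, smul_eq_mul, mul_comm]
  have hM0 : M ≠ 0 := by
    intro h0
    have h1 := hMev (Pi.single k 1)
    rw [h0, map_zero, hl] at h1
    have h2 : ∑ k', l k' * sv σ (Pi.single k (1 : K)) k' = l k := by
      rw [Finset.sum_eq_single k]
      · simp [sv]
      · intro c _ hc; simp [sv, hc]
      · simp
    rw [h2] at h1
    exact hj h1.symm
  have hquad : quad t R ≠ 0 := quad_ne_zero H.ht hRB (H.ns_K hR0 hR)
  have hdiv : F ∣ M * quad t R := by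
    apply H.hdens
    intro y hy hF
    rw [map_mul, hMev, eval_quad]
    by_cases h1 : B t y y R = 0
    · rw [h1, mul_zero]
    · have hyB : B (tm σ t) (sv σ y) (sv σ y) (sv σ y) = 0 :=
        B_sv_zero (by rw [← H.hFt]; exact hF)
      have h2 := hv _ (B_Phi_zero hsym x1 (sv σ y) hx1.2.1 hyB)
      rw [hev, B_Phi hsym _ _ hx1.2.1, Phi_Phi hsym _ _ hx1.2.1, B_smul_left, B_smul_mid hsym,
        B_sv] at h2
      have h3 : σ (B t y y R) ≠ 0 := by
        intro h; exact h1 ((map_eq_zero σ).1 h)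
      have h4 : B (tm σ t) x1 x1 (sv σ y) = 0 := by
        by_contra h5
        apply h3
        have h6 : -(B (tm σ t) x1 x1 (sv σ y)) ^ 2 * ((-(B (tm σ t) x1 x1 (sv σ y)) ^ 3) *
            ((-(B (tm σ t) x1 x1 (sv σ y)) ^ 3))) ≠ 0 :=
          mul_ne_zero (neg_ne_zero.2 (pow_ne_zero _ h5))
            (mul_ne_zero (neg_ne_zero.2 (pow_ne_zero _ h5)) (neg_ne_zero.2 (pow_ne_zero _ h5)))
        have h7 : -(B (tm σ t) x1 x1 (sv σ y)) ^ 2 * ((-(B (tm σ t) x1 x1 (sv σ y)) ^ 3) *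
            ((-(B (tm σ t) x1 x1 (sv σ y)) ^ 3))) * σ (B t y y R) = 0 := by
          rw [← h2]; ring
        exact (mul_eq_zero.1 h7).resolve_left h6
      rw [h4, map_zero, Finsupp.zero_apply, zero_mul]
  rcases H.hirr.prime.dvd_or_dvd hdiv with h1 | h1
  · exact not_dvd_of_lt H.hF H.hirr.ne_zero hM hM0 (by norm_num) h1
  · exact not_dvd_of_lt H.hF H.hirr.ne_zero (quad_hom t R) hquad (by norm_num) h1

theorem nhds_prod_self' {X Y : Type*} [TopologicalSpace X] [TopologicalSpace Y] {g : X → X → Y}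
    (hg : Continuous fun p : X × X => g p.1 p.2) (z : X) {W : Set Y} (hW : W ∈ 𝓝 (g z z)) :
    ∃ V ∈ 𝓝 z, ∀ z1 ∈ V, ∀ z2 ∈ V, g z1 z2 ∈ W := by
  have h3 : (fun p : X × X => g p.1 p.2) ⁻¹' W ∈ 𝓝 (z, z) :=
    (hg.continuousAt (x := (z, z))).preimage_mem_nhds hW
  rw [nhds_prod_eq, Filter.mem_prod_self_iff] at h3
  obtain ⟨V, hV, hV2⟩ := h3
  exact ⟨V, hV, fun z1 hz1 z2 hz2 => hV2 (Set.mk_mem_prod hz1 hz2)⟩

theorem continuous_PhiPhi (τ : Fin n → Fin n → Fin n → L) (c : L) (r : Fin n → L) :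
    Continuous fun p : (Fin n → L) × (Fin n → L) => c • Phi τ (Phi τ r p.1) p.2 := by
  unfold Phi B
  fun_prop

theorem nhds_PhiPhi (τ : Fin n → Fin n → Fin n → L) (c : L) (r z : Fin n → L)
    (h1 : c • Phi τ (Phi τ r z) z ≠ 0)
    {U : Set (Fin n → L)} (hU : U ∈ 𝓝 (c • Phi τ (Phi τ r z) z)) :
    ∃ V ∈ 𝓝 z, ∀ z1 ∈ V, ∀ z2 ∈ V, c • Phi τ (Phi τ r z1) z2 ∈ U ∩ {w | w ≠ 0} :=
  nhds_prod_self' (g := fun z1 z2 => c • Phi τ (Phi τ r z1) z2) (continuous_PhiPhi τ c r) z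
    (Filter.inter_mem hU (isOpen_ne.mem_nhds h1))

theorem om_rational [CharZero K] [ProperSpace L] {F : MvPolynomial (Fin n) K} (H : Cub σ t F)
    {R : Fin n → K} (hR0 : R ≠ 0) (hR : eval R F = 0) : Om σ t F (sv σ R) := by
  classical
  obtain ⟨x1, hx1⟩ := exists_om H
  obtain ⟨P, hP0, hP, hP1, hP2⟩ := exists_good H hx1 hR0 hR
  have hx0 := om_transport H hx1 hP0 hP hP1
  set x0 := Phi (tm σ t) (sv σ P) x1 with hx0def
  have hsym := sym_map (σ := σ) H.ht
  have hRB : B t R R R = 0 := by rw [← H.hFt]; exact hR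
  have hsR : sv σ R ≠ 0 := fun h => hR0 ((sv_eq_zero σ).1 h)
  refine ⟨hsR, B_sv_zero hRB, ?_⟩
  intro e f hf U hU hfU
  -- the composition
  have e1 : Phi (tm σ t) (Phi (tm σ t) (sv σ R) x0) x0
      = (B (tm σ t) x0 x0 (sv σ R)) ^ 3 • sv σ R := by
    rw [Phi_swap, Phi_swap x0 (sv σ R)]
    have h2 : Phi (tm σ t) x0 (-Phi (tm σ t) x0 (sv σ R))
        = Phi (tm σ t) x0 (Phi (tm σ t) x0 (sv σ R)) := by
      have e : -Phi (tm σ t) x0 (sv σ R) = (-1 : L) • Phi (tm σ t) x0 (sv σ R) := by simp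
      rw [e, Phi_smul_right hsym]
      simp
    rw [h2, Phi_Phi hsym _ _ hx0.2.1]
    simp
  set c : L := ((B (tm σ t) x0 x0 (sv σ R)) ^ 3)⁻¹ with hc
  have hc0 : c ≠ 0 := inv_ne_zero (pow_ne_zero _ hP2)
  have e2 : c • Phi (tm σ t) (Phi (tm σ t) (sv σ R) x0) x0 = sv σ R := by
    rw [e1, smul_smul, hc, inv_mul_cancel₀ (pow_ne_zero _ hP2), one_smul]
  obtain ⟨V, hV, hV2⟩ := nhds_PhiPhi (tm σ t) c (sv σ R) x0 (by rw [e2]; exact hsR)
    (U := U) (by rw [e2]; exact hU)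
  obtain ⟨Q, hQ0, hQ, d, hd, hdV⟩ := exists_rational H.hirr hx0 hV
  have hQB : B t Q Q Q = 0 := by rw [← H.hFt]; exact hQ
  have e3 : Phi (tm σ t) (sv σ R) (d • sv σ Q) = d ^ 2 • sv σ (Phi t R Q) := by
    rw [Phi_smul_right hsym, sv_Phi]
  have hR' : eval (Phi t R Q) F = 0 := by
    rw [H.hFt]
    exact B_Phi_zero H.ht _ _ hRB hQB
  have hx0V : x0 ∈ V := mem_of_mem_nhds hV
  have h0 : Phi t R Q ≠ 0 := by
    intro h0
    have h1 := (hV2 _ hdV _ hx0V).2
    apply h1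
    rw [e3, h0, (sv_eq_zero σ).2 rfl, smul_zero]
    have : Phi (tm σ t) 0 x0 = 0 := by
      simp [Phi, B]
    rw [this, smul_zero]
  refine dvd_of_map H hx0 h0 hR' hV (U := U) ?_ hf hfU
  intro z hz
  have h1 := hV2 _ hdV _ hz
  rw [e3, Phi_smul_left hsym, smul_smul] at h1
  refine ⟨c * (d ^ 2) ^ 2, mul_ne_zero hc0 (pow_ne_zero _ (pow_ne_zero _ hd)), h1.1, ?_⟩
  intro h2
  exact h1.2 (by rw [h2, smul_zero])

end End

end Pool.Agent.MazurC
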