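import Mathlib
import Pool.Agent.MazurC.CubicEnd

/-!
Local Zariski closures on cubic hypersurfaces: final form.
-/

namespace Pool.Agent.MazurC

open MvPolynomial Topology

/-- `x` is, projectively, a limit of points of `X(K)`. -/
def IsLimit {K : Type} [Field K] {L : Type} [NontriviallyNormedField L] (σ : K →+* L) {n : ℕ}
    (S : Set (MvPolynomial (Fin (n + 1)) K)) (x : Fin (n + 1) → L) : Prop :=
  ∀ U ∈ 𝓝 x, ∃ y : Fin (n + 1) → K, y ≠ 0 ∧ (∀ g ∈ S, eval y g = 0) ∧
    ∃ c : L, c ≠ 0 ∧ (fun i => c * σ (y i)) ∈ U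

section Final

variable {K : Type} [Field K] {L : Type} [NontriviallyNormedField L] {σ : K →+* L} {n : ℕ}

theorem localIdeal_eq_univ {S : Set (MvPolynomial (Fin (n + 1)) K)} {x : Fin (n + 1) → L}
    (h : ¬ IsLimit σ S x) : localIdeal σ S x = Set.univ := by
  unfold IsLimit at h
  push Not at h
  obtain ⟨U, hU, h⟩ := h
  ext f
  simp only [localIdeal, Set.mem_ofPred_eq, Set.mem_univ, iff_true]
  refine ⟨U, hU, ?_⟩
  rintro y hy hS ⟨c, hc, hcU⟩
  exact absurd hcU (h y hy hS c hc)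

theorem pderiv_B {t : Fin (n + 1) → Fin (n + 1) → Fin (n + 1) → K} (ht : Sym t)
    {F : MvPolynomial (Fin (n + 1)) K} (hF : F = ∑ i, ∑ j, ∑ k, C (t i j k) * X i * X j * X k)
    (x : Fin (n + 1) → L) (l : Fin (n + 1)) :
    eval₂ σ x (pderiv l F) = 3 * B (tm σ t) x x (Pi.single l 1) := by
  classical
  have hsym := sym_map (σ := σ) ht
  have e1 : ∀ a b : Fin (n + 1) → L, B (tm σ t) (Pi.single l 1) a b
      = ∑ j, ∑ k, tm σ t l j k * a j * b k := by
    intro a b
    rw [B, Finset.sum_eq_single l]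
    · simp
    · intro c _ hc; simp [hc]
    · simp
  have h1 : eval₂ σ x (pderiv l F) = B (tm σ t) (Pi.single l 1) x x
      + B (tm σ t) x (Pi.single l 1) x + B (tm σ t) x x (Pi.single l 1) := by
    rw [hF]
    simp only [map_sum, eval₂_sum, B, ← Finset.sum_add_distrib]
    refine Finset.sum_congr rfl fun i _ => Finset.sum_congr rfl fun j _ =>
      Finset.sum_congr rfl fun k _ => ?_
    rw [Derivation.leibniz, Derivation.leibniz, Derivation.leibniz, pderiv_C, pderiv_X, pderiv_X,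
      pderiv_X]
    simp only [smul_eq_mul, eval₂_add, eval₂_mul, eval₂_C, eval₂_X, tm, mul_zero, add_zero]
    have e2 : ∀ m : Fin (n + 1), eval₂ σ x ((Pi.single l (1 : MvPolynomial (Fin (n + 1)) K) :
        Fin (n + 1) → MvPolynomial (Fin (n + 1)) K) m)
        = (Pi.single l (1 : L) : Fin (n + 1) → L) m := by
      intro m
      by_cases hm : m = l
      · subst hm; simp
      · simp [hm]
    have e3 : ∀ m : Fin (n + 1), (Pi.single m (1 : MvPolynomial (Fin (n + 1)) K) :
        Fin (n + 1) → MvPolynomial (Fin (n + 1)) K) l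
        = (Pi.single l (1 : MvPolynomial (Fin (n + 1)) K) :
        Fin (n + 1) → MvPolynomial (Fin (n + 1)) K) m := by
      intro m
      by_cases hm : m = l
      · subst hm; rfl
      · rw [Pi.single_eq_of_ne hm, Pi.single_eq_of_ne (Ne.symm hm)]
    simp only [e3, e2]
    ring
  rw [h1, B_swap12 hsym (Pi.single l 1) x x, B_swap23 hsym x (Pi.single l 1) x]
  ring

theorem cubic_localIdeal [CharZero K] [ProperSpace L] (F : MvPolynomial (Fin (n + 1)) K)
    (hF : F.IsHomogeneous 3) (hirr : Irreducible F)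
    (hsm : ∀ x : Fin (n + 1) → L, x ≠ 0 → eval₂ σ x F = 0 → ∃ i, eval₂ σ x (pderiv i F) ≠ 0)
    (hdens : ∀ f : MvPolynomial (Fin (n + 1)) K,
      (∀ y : Fin (n + 1) → K, y ≠ 0 → eval y F = 0 → eval y f = 0) → F ∣ f)
    (x : Fin (n + 1) → L) (hx : IsLimit σ {F} x) : localIdeal σ {F} x = {f | F ∣ f} := by
  classical
  obtain ⟨t, ht, hFp⟩ := exists_tensor F hF
  have hFL : ∀ z : Fin (n + 1) → L, eval₂ σ z F = B (tm σ t) z z z := by
    intro z
    conv_lhs => rw [hFp]
    simp only [B, eval₂_sum, eval₂_mul, eval₂_C, eval₂_X, tm]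
  have H : Cub σ t F := by
    refine ⟨ht, hFp, hF, hirr, hdens, ?_⟩
    intro z hz hzB
    obtain ⟨i, hi⟩ := hsm z hz (by rw [hFL, hzB])
    rw [pderiv_B ht hFp] at hi
    exact ⟨Pi.single i 1, fun h => hi (by rw [h, mul_zero])⟩
  ext f
  simp only [localIdeal, Set.mem_ofPred_eq, Set.mem_singleton_iff, forall_eq]
  constructor
  · rintro ⟨U, hU, h⟩
    obtain ⟨V, hVU, hVo, hxV⟩ := mem_nhds_iff.1 hU
    obtain ⟨R, hR0, hR, c, hc, hcV⟩ := hx V (hVo.mem_nhds hxV)
    have hR' : eval R F = 0 := hR F rfl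
    have hom := (om_rational H hR0 hR').smul hc
    have hcV' : c • sv σ R ∈ V := hcV
    have hnb : V ∈ 𝓝 (c • sv σ R) := hVo.mem_nhds hcV'
    rw [← sum_homogeneousComponent f]
    refine Finset.dvd_sum fun d _ => ?_
    refine hom.2.2 d _ (homogeneousComponent_isHomogeneous d f) V hnb ?_
    rintro y hy hFy ⟨c', hc', hc'V⟩
    exact component_eval_eq_zero f y (h y hy hFy ⟨c', hc', hVU hc'V⟩) d
  · rintro ⟨g, rfl⟩
    refine ⟨Set.univ, Filter.univ_mem, ?_⟩
    intro y _ hy _ s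
    rw [map_mul, eval_smul_hom hF, hy, mul_zero, zero_mul]

end Final

end Pool.Agent.MazurC
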