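import Mathlib

/-!
Every affine variety over the rationals is, near its rational points, an irreducible projective
quartic hypersurface.
-/

namespace Pool.Agent.MazurC

open MvPolynomial

section Irr

variable {J R : Type} [Fintype R]

/-- The specialisation `a ↦ X`, `b ↦ 1`, all other variables to `0`. -/
noncomputable def theta [DecidableEq J] (a b : J) : MvPolynomial J ℚ →ₐ[ℚ] Polynomial ℚ :=
  aeval fun j => if j = a then Polynomial.X else if j = b then 1 else 0

theorem irreducible_X4 : Irreducible (Polynomial.X ^ 4 + 1 : Polynomial ℚ) := by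
  have h := Polynomial.cyclotomic.irreducible_rat (n := 8) (by norm_num)
  have h2 : Polynomial.cyclotomic 8 ℚ = Polynomial.X ^ 4 + 1 := by
    have := Polynomial.cyclotomic_prime_pow_eq_geom_sum (R := ℚ) (p := 2) (n := 2) Nat.prime_two
    norm_num at this
    exact this
  rwa [h2] at h

theorem quartic_irreducible [DecidableEq J] (a b : J) (hab : a ≠ b) (q : R → MvPolynomial J ℚ)
    (hq2 : ∀ r, (q r).IsHomogeneous 2) (hq : ∀ r, theta a b (q r) = 0) :
    (∑ r, q r ^ 2 + X a ^ 4 + X b ^ 4).IsHomogeneous 4 ∧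
    Irreducible (∑ r, q r ^ 2 + X a ^ 4 + X b ^ 4) := by
  set G := ∑ r, q r ^ 2 + X a ^ 4 + X b ^ 4 with hG
  have hhom : G.IsHomogeneous 4 := by
    refine IsHomogeneous.add (IsHomogeneous.add ?_ ?_) ?_
    · exact IsHomogeneous.sum _ _ _ fun r _ => by simpa using (hq2 r).pow 2
    · simpa using (isHomogeneous_X ℚ a).pow 4
    · simpa using (isHomogeneous_X ℚ b).pow 4
  have hθ : theta a b G = Polynomial.X ^ 4 + 1 := by
    have h1 : theta a b (X a) = Polynomial.X := by simp [theta]
    have h2 : theta a b (X b) = 1 := by simp [theta, hab.symm]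
    rw [hG, map_add, map_add, map_sum, map_pow, map_pow, h1, h2, one_pow]
    simp [hq]
  have hG0 : G ≠ 0 := by
    intro h
    rw [h, map_zero] at hθ
    exact irreducible_X4.ne_zero hθ.symm
  refine ⟨hhom, ?_⟩
  have hdeg : ∀ f : MvPolynomial J ℚ, (theta a b f).natDegree ≤ f.totalDegree := by
    intro f
    have := MvPolynomial.aeval_natDegree_le (m := f.totalDegree) (n := 1) f le_rfl
      (fun j => if j = a then (Polynomial.X : Polynomial ℚ) else if j = b then 1 else 0) (by
        intro j
        split_ifs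
        · exact Polynomial.natDegree_X_le
        · simp
        · simp)
    simpa [theta] using this
  have hX4 : (Polynomial.X ^ 4 + 1 : Polynomial ℚ).natDegree = 4 := by
    compute_degree!
  -- a factor whose image is a unit is a unit
  have key : ∀ f g : MvPolynomial J ℚ, G = f * g → IsUnit (theta a b f) → IsUnit f := by
    intro f g hfg hu
    have hf0 : f ≠ 0 := by rintro rfl; rw [zero_mul] at hfg; exact hG0 hfg
    have hg0 : g ≠ 0 := by rintro rfl; rw [mul_zero] at hfg; exact hG0 hfg
    have h1 : f.totalDegree + g.totalDegree = 4 := by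
      rw [← totalDegree_mul_of_isDomain hf0 hg0, ← hfg, hhom.totalDegree hG0]
    have h2 : (theta a b f).natDegree = 0 := Polynomial.natDegree_eq_zero_of_isUnit hu
    have h3 : (theta a b f * theta a b g).natDegree = 4 := by
      rw [← map_mul, ← hfg, hθ, hX4]
    have h4 : (theta a b f * theta a b g).natDegree ≤
        (theta a b f).natDegree + (theta a b g).natDegree := Polynomial.natDegree_mul_le
    have h5 := hdeg g
    have h6 : f.totalDegree = 0 := by omega
    rw [totalDegree_eq_zero_iff_eq_C] at h6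
    rw [h6]
    refine IsUnit.map C (isUnit_iff_ne_zero.2 ?_)
    intro h7
    rw [h7, map_zero] at h6
    exact hf0 h6
  constructor
  · intro hu
    have := hu.map (theta a b)
    rw [hθ] at this
    exact irreducible_X4.not_isUnit this
  · intro f g hfg
    have h1 : theta a b f * theta a b g = Polynomial.X ^ 4 + 1 := by
      rw [← map_mul, ← hfg, hθ]
    rcases irreducible_X4.isUnit_or_isUnit h1.symm with h2 | h2
    · left; exact key f g hfg h2
    · right; exact key g f (by rw [hfg, mul_comm]) h2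

end Irr

section Constr

variable {κ : Type} [Fintype κ] [DecidableEq κ]

/-- Exponents of monomials with all exponents at most `m + 1`. -/
abbrev Box (κ : Type) (m : ℕ) : Type := κ → Fin (m + 2)

/-- The monomial with a given exponent. -/
noncomputable def mono {m : ℕ} (α : Box κ m) : MvPolynomial κ ℚ := ∏ i, X i ^ (α i : ℕ)

theorem eval_mono {m : ℕ} (α : Box κ m) (z : κ → ℚ) :
    eval z (mono α) = ∏ i, z i ^ (α i : ℕ) := by
  simp [mono]

/-- Decrease the exponent of `i`. -/
def dec {m : ℕ} (α : Box κ m) (i : κ) : Box κ m :=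
  Function.update α i ⟨(α i : ℕ) - 1, by omega⟩

/-- The unit exponent. -/
def unit (m : ℕ) (i : κ) : Box κ m := Pi.single i 1

/-- The quadratic relation attached to `(α, i)`. -/
noncomputable def rel {m : ℕ} (r : Box κ m × κ) : MvPolynomial (Box κ m ⊕ Fin 2) ℚ :=
  if (r.1 r.2 : ℕ) = 0 then 0 else
    X (Sum.inl 0) * X (Sum.inl r.1) - X (Sum.inl (dec r.1 r.2)) * X (Sum.inl (unit m r.2))

/-- Truncation of exponents. -/
def trunc (m : ℕ) (γ : κ →₀ ℕ) : Box κ m := fun i => ⟨min (γ i) (m + 1), by omega⟩

/-- The quadratic form attached to a polynomial. -/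
noncomputable def lf (m : ℕ) (g : MvPolynomial κ ℚ) : MvPolynomial (Box κ m ⊕ Fin 2) ℚ :=
  X (Sum.inl 0) * ∑ γ ∈ g.support, C (coeff γ g) * X (Sum.inl (trunc m γ))

theorem rel_hom {m : ℕ} (r : Box κ m × κ) : (rel r).IsHomogeneous 2 := by
  unfold rel
  split_ifs
  · exact isHomogeneous_zero _ _ _
  · exact ((isHomogeneous_X ℚ _).mul (isHomogeneous_X ℚ _)).sub
      ((isHomogeneous_X ℚ _).mul (isHomogeneous_X ℚ _))

theorem lf_hom (m : ℕ) (g : MvPolynomial κ ℚ) : (lf m g).IsHomogeneous 2 := by
  unfold lf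
  exact (isHomogeneous_X ℚ _).mul (IsHomogeneous.sum _ _ _ fun γ _ => isHomogeneous_C_mul_X _ _)

/-- If all the relations vanish at `v`, then `v` is a multiple of the vector of monomials. -/
theorem eq_mono_of_rel {m : ℕ} (v : Box κ m ⊕ Fin 2 → ℚ) (h0 : v (Sum.inl 0) ≠ 0)
    (h : ∀ r, eval v (rel r) = 0) (α : Box κ m) :
    v (Sum.inl α) = v (Sum.inl 0) *
      ∏ i, (v (Sum.inl (unit m i)) / v (Sum.inl 0)) ^ (α i : ℕ) := by
  induction hs : ∑ i, (α i : ℕ) using Nat.strong_induction_on generalizing α with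
  | _ s ih =>
    by_cases hα : ∃ i, (α i : ℕ) ≠ 0
    · obtain ⟨i, hi⟩ := hα
      have h1 := h (α, i)
      rw [rel, if_neg hi] at h1
      simp only [map_sub, map_mul, eval_X] at h1
      have hdec : ∀ k, ((dec α i) k : ℕ) = if k = i then (α i : ℕ) - 1 else (α k : ℕ) := by
        intro k
        by_cases hk : k = i
        · subst hk; simp [dec]
        · simp [dec, hk]
      have h2 : ∑ k, ((dec α i) k : ℕ) < s := by
        rw [← hs]
        apply Finset.sum_lt_sum
        · intro k _
          rw [hdec]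
          split_ifs with hk
          · subst hk; omega
          · exact le_rfl
        · exact ⟨i, Finset.mem_univ _, by rw [hdec, if_pos rfl]; omega⟩
      have h3 := ih _ h2 (dec α i) rfl
      have h4 : ∏ k, (v (Sum.inl (unit m k)) / v (Sum.inl 0)) ^ (α k : ℕ)
          = (∏ k, (v (Sum.inl (unit m k)) / v (Sum.inl 0)) ^ ((dec α i) k : ℕ)) *
            (v (Sum.inl (unit m i)) / v (Sum.inl 0)) := by
        rw [← Finset.mul_prod_erase _ _ (Finset.mem_univ i),
          ← Finset.mul_prod_erase _ (fun k => (v (Sum.inl (unit m k)) / v (Sum.inl 0)) ^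
            ((dec α i) k : ℕ)) (Finset.mem_univ i)]
        have h5 : ∏ k ∈ Finset.univ.erase i, (v (Sum.inl (unit m k)) / v (Sum.inl 0)) ^
            ((dec α i) k : ℕ)
            = ∏ k ∈ Finset.univ.erase i, (v (Sum.inl (unit m k)) / v (Sum.inl 0)) ^ (α k : ℕ) := by
          refine Finset.prod_congr rfl fun k hk => ?_
          rw [hdec, if_neg (Finset.ne_of_mem_erase hk)]
        rw [h5, hdec, if_pos rfl]
        have h6 : (α i : ℕ) = ((α i : ℕ) - 1) + 1 := by omega
        conv_lhs => rw [h6, pow_succ]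
        ring
      rw [h4]
      have h7 : v (Sum.inl 0) * v (Sum.inl α) =
          v (Sum.inl (dec α i)) * v (Sum.inl (unit m i)) := by linarith
      rw [h3] at h7
      field_simp at h7 ⊢
      linarith
    · push Not at hα
      have h1 : α = 0 := by
        funext i
        exact Fin.ext (hα i)
      subst h1
      simp

/-- Every finite system of polynomial equations over the rationals is, near its rational
solutions, an irreducible projective quartic hypersurface. -/
theorem main_construct_box (T : Finset (MvPolynomial κ ℚ)) :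
    ∃ m : ℕ, ∃ G : MvPolynomial (Box κ m ⊕ Fin 2) ℚ, G.IsHomogeneous 4 ∧ Irreducible G ∧
      (∀ z : κ → ℚ, (∀ g ∈ T, eval z g = 0) →
        eval (Sum.elim (fun α => ∏ i, z i ^ (α i : ℕ)) 0) G = 0) ∧
      ∀ v : Box κ m ⊕ Fin 2 → ℚ, v (Sum.inl 0) ≠ 0 → eval v G = 0 →
        (∀ α, v (Sum.inl α) = v (Sum.inl 0) *
          ∏ i, (v (Sum.inl (unit m i)) / v (Sum.inl 0)) ^ (α i : ℕ)) ∧
        (∀ c, v (Sum.inr c) = 0) ∧
        ∀ g ∈ T, eval (fun i => v (Sum.inl (unit m i)) / v (Sum.inl 0)) g = 0 := by
  classical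
  obtain ⟨m, hm⟩ : ∃ m : ℕ, ∀ g ∈ T, ∀ γ ∈ g.support, ∀ i, γ i ≤ m + 1 := by
    refine ⟨T.sup fun g => g.totalDegree, fun g hg γ hγ i => ?_⟩
    have h1 : γ i ≤ γ.degree := Finsupp.le_degree i γ
    have h2 : γ.degree ≤ g.totalDegree := by
      have := le_totalDegree hγ
      rwa [Finsupp.sum, ← Finsupp.degree_apply] at this
    have h3 : g.totalDegree ≤ T.sup fun g => g.totalDegree := Finset.le_sup (f := fun g : MvPolynomial κ ℚ => g.totalDegree) hg
    omega
  have htr : ∀ g ∈ T, ∀ γ ∈ g.support, ∀ i, (trunc m γ i : ℕ) = γ i := by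
    intro g hg γ hγ i
    have := hm g hg γ hγ i
    simp [trunc, this]
  let q : (Box κ m × κ) ⊕ T → MvPolynomial (Box κ m ⊕ Fin 2) ℚ :=
    Sum.elim (fun r => rel r) (fun g => lf m g.1)
  have hq2 : ∀ r, (q r).IsHomogeneous 2 := by
    rintro (r | g)
    · exact rel_hom r
    · exact lf_hom m g.1
  have hq : ∀ r, theta (Sum.inr 0) (Sum.inr 1) (q r) = 0 := by
    rintro (r | g)
    · show theta _ _ (rel r) = 0
      unfold rel
      split_ifs
      · simp
      · simp [theta]
    · show theta _ _ (lf m g.1) = 0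
      simp [lf, theta]
  obtain ⟨hhom, hirr⟩ := quartic_irreducible (J := Box κ m ⊕ Fin 2) (Sum.inr 0) (Sum.inr 1)
    (by simp) q hq2 hq
  refine ⟨m, _, hhom, hirr, ?_, ?_⟩
  · intro z hz
    rw [map_add, map_add, map_sum, map_pow, map_pow, eval_X, eval_X]
    have h1 : ∀ r, eval (Sum.elim (fun α : Box κ m => ∏ i, z i ^ (α i : ℕ)) 0) (q r) = 0 := by
      rintro (⟨α, i⟩ | g)
      · show eval _ (rel (α, i)) = 0
        unfold rel
        split_ifs with h
        · simp
        · simp only [map_sub, map_mul, eval_X, Sum.elim_inl]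
          have e1 : ∏ k, z k ^ (((0 : Box κ m) k : Fin (m + 2)) : ℕ) = 1 := by simp
          have e2 : ∏ k, z k ^ ((unit m i k : Fin (m + 2)) : ℕ) = z i := by
            rw [Finset.prod_eq_single i]
            · simp [unit]
            · intro k _ hk; simp [unit, hk]
            · simp
          have e3 : ∏ k, z k ^ (α k : ℕ) = (∏ k, z k ^ ((dec α i k : Fin (m + 2)) : ℕ)) * z i := by
            rw [← Finset.mul_prod_erase _ _ (Finset.mem_univ i),
              ← Finset.mul_prod_erase _ (fun k => z k ^ ((dec α i k : Fin (m + 2)) : ℕ))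
                (Finset.mem_univ i)]
            have e4 : ∏ k ∈ Finset.univ.erase i, z k ^ ((dec α i k : Fin (m + 2)) : ℕ)
                = ∏ k ∈ Finset.univ.erase i, z k ^ (α k : ℕ) := by
              refine Finset.prod_congr rfl fun k hk => ?_
              simp [dec, Finset.ne_of_mem_erase hk]
            rw [e4]
            have e5 : ((dec α i i : Fin (m + 2)) : ℕ) = (α i : ℕ) - 1 := by simp [dec]
            rw [e5]
            have h' : (α i : ℕ) ≠ 0 := h
            have e6 : (α i : ℕ) = ((α i : ℕ) - 1) + 1 := by omega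
            conv_lhs => rw [e6, pow_succ]
            ring
          rw [e1, e2, e3]
          ring
      · show eval _ (lf m g.1) = 0
        unfold lf
        simp only [map_mul, map_sum, eval_X, eval_C, Sum.elim_inl]
        have h2 := hz g.1 g.2
        rw [eval_eq] at h2
        have h3 : ∑ γ ∈ g.1.support, coeff γ g.1 * ∏ i, z i ^ ((trunc m γ i : Fin (m + 2)) : ℕ)
            = 0 := by
          rw [← h2]
          refine Finset.sum_congr rfl fun γ hγ => ?_
          congr 1
          rw [Finset.prod_congr rfl fun i _ => by rw [htr g.1 g.2 γ hγ i]]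
          refine (Finset.prod_subset (Finset.subset_univ _) ?_).symm
          intro i _ hi
          rw [Finsupp.notMem_support_iff.1 hi, pow_zero]
        rw [h3, mul_zero]
    rw [Finset.sum_eq_zero fun r _ => by rw [map_pow, h1, zero_pow two_ne_zero]]
    simp
  · intro v hv0 hvG
    rw [map_add, map_add, map_sum, map_pow, map_pow, eval_X, eval_X] at hvG
    have hs : 0 ≤ ∑ r, eval v (q r ^ 2) :=
      Finset.sum_nonneg fun r _ => by rw [map_pow]; positivity
    have ha : 0 ≤ v (Sum.inr 0) ^ 4 := by positivity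
    have hb : 0 ≤ v (Sum.inr 1) ^ 4 := by positivity
    have hs0 : ∑ r, eval v (q r ^ 2) = 0 := by linarith
    have ha0 : v (Sum.inr 0) ^ 4 = 0 := by linarith
    have hb0 : v (Sum.inr 1) ^ 4 = 0 := by linarith
    have hq0 : ∀ r, eval v (q r) = 0 := by
      intro r
      have h1 := (Finset.sum_eq_zero_iff_of_nonneg
        (fun r _ => by rw [map_pow]; positivity)).1 hs0 r (Finset.mem_univ r)
      rw [map_pow] at h1
      exact pow_eq_zero_iff (two_ne_zero) |>.1 h1
    have hrel : ∀ α, v (Sum.inl α) = v (Sum.inl 0) *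
          ∏ i, (v (Sum.inl (unit m i)) / v (Sum.inl 0)) ^ (α i : ℕ) :=
      eq_mono_of_rel v hv0 fun r => hq0 (Sum.inl r)
    refine ⟨hrel, ?_, ?_⟩
    · intro c
      fin_cases c
      · exact pow_eq_zero_iff (by norm_num) |>.1 ha0
      · exact pow_eq_zero_iff (by norm_num) |>.1 hb0
    · intro g hg
      have h1 := hq0 (Sum.inr ⟨g, hg⟩)
      have h2 : eval v (lf m g) = 0 := h1
      unfold lf at h2
      simp only [map_mul, map_sum, eval_X, eval_C] at h2
      have h3 := (mul_eq_zero.1 h2).resolve_left hv0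
      rw [eval_eq]
      have h4 : v (Sum.inl 0) * ∑ γ ∈ g.support, coeff γ g *
          ∏ i ∈ γ.support, (v (Sum.inl (unit m i)) / v (Sum.inl 0)) ^ γ i = 0 := by
        rw [← h3, Finset.mul_sum]
        refine Finset.sum_congr rfl fun γ hγ => ?_
        rw [hrel (trunc m γ)]
        have h5 : ∏ i, (v (Sum.inl (unit m i)) / v (Sum.inl 0)) ^ ((trunc m γ i : Fin (m + 2)) : ℕ)
            = ∏ i ∈ γ.support, (v (Sum.inl (unit m i)) / v (Sum.inl 0)) ^ γ i := by
          rw [Finset.prod_congr rfl fun i _ => by rw [htr g hg γ hγ i]]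
          refine (Finset.prod_subset (Finset.subset_univ _) ?_).symm
          intro i _ hi
          rw [Finsupp.notMem_support_iff.1 hi, pow_zero]
        rw [h5]; ring
      exact (mul_eq_zero.1 h4).resolve_left hv0

/-- The same with variables indexed by `Fin (M + 1)`. -/
theorem main_construct (T : Finset (MvPolynomial κ ℚ)) :
    ∃ (M : ℕ) (G : MvPolynomial (Fin (M + 1)) ℚ) (o : Fin (M + 1)) (ε : κ → Fin (M + 1))
      (p : Fin (M + 1) → MvPolynomial κ ℚ), G.IsHomogeneous 4 ∧ Irreducible G ∧ p o = 1 ∧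
      (∀ i, p (ε i) = X i) ∧
      (∀ z : κ → ℚ, (∀ g ∈ T, eval z g = 0) → eval (fun j => eval z (p j)) G = 0) ∧
      ∀ v : Fin (M + 1) → ℚ, v o ≠ 0 → eval v G = 0 →
        (∀ j, v j = v o * eval (fun i => v (ε i) / v o) (p j)) ∧
        ∀ g ∈ T, eval (fun i => v (ε i) / v o) g = 0 := by
  classical
  obtain ⟨m, G, hhom, hirr, h1, h2⟩ := main_construct_box T
  obtain ⟨M, hM⟩ : ∃ M, Fintype.card (Box κ m ⊕ Fin 2) = M + 1 := by
    refine ⟨Fintype.card (Box κ m ⊕ Fin 2) - 1, ?_⟩
    have : 0 < Fintype.card (Box κ m ⊕ Fin 2) := Fintype.card_pos_iff.2 ⟨Sum.inr 0⟩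
    omega
  let e : (Box κ m ⊕ Fin 2) ≃ Fin (M + 1) := Fintype.equivFinOfCardEq hM
  refine ⟨M, rename e G, e (Sum.inl 0), fun i => e (Sum.inl (unit m i)),
    fun j => Sum.elim (fun α => mono α) 0 (e.symm j), hhom.rename_isHomogeneous, ?_, ?_, ?_, ?_, ?_⟩
  · have := (MulEquiv.irreducible_iff (renameEquiv ℚ e)).2 hirr
    simpa using this
  · simp [mono]
  · intro i
    simp only [Equiv.symm_apply_apply, Sum.elim_inl, mono]
    rw [Finset.prod_eq_single i]
    · simp [unit]
    · intro k _ hk; simp [unit, hk]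
    · simp
  · intro z hz
    rw [eval_rename, ← h1 z hz]
    congr 2
    funext j
    rcases j with α | c
    · simp [eval_mono]
    · simp
  · intro v hv0 hvG
    rw [eval_rename] at hvG
    obtain ⟨h3, h4, h5⟩ := h2 (v ∘ e) hv0 hvG
    refine ⟨?_, h5⟩
    intro j
    obtain ⟨j', rfl⟩ := e.surjective j
    rcases j' with α | c
    · have := h3 α
      simp only [Function.comp_apply] at this
      simp only [Equiv.symm_apply_apply, Sum.elim_inl, eval_mono]
      exact this
    · have := h4 c
      simp only [Function.comp_apply] at this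
      simp [this]

end Constr

end Pool.Agent.MazurC
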