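import Mathlib
import Pool.Agent.MazurC.Proper

/-!
Coordinates on the restriction of scalars at a place.
-/

namespace Pool.Agent.MazurC

open Topology TensorProduct

section Alg

variable {k K L : Type} [Field k] [CharZero k] [Field K] [NumberField K] [Field L] [CharZero L]
  [Algebra k L]

/-- The evaluation map `k ⊗ K → L`. -/
noncomputable def phiA [IsScalarTower ℚ k L] (σ : K →+* L) : (k ⊗[ℚ] K) →ₐ[k] L :=
  Algebra.TensorProduct.lift (Algebra.ofId k L) σ.toRatAlgHom (fun _ _ => Commute.all _ _)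

theorem phiA_tmul [IsScalarTower ℚ k L] (σ : K →+* L) (a : k) (x : K) :
    phiA (k := k) σ (a ⊗ₜ x) = algebraMap k L a * σ x := by
  simp [phiA, Algebra.ofId_apply]

theorem semisimple_tensor : IsSemisimpleRing (k ⊗[ℚ] K) := by
  have h1 : Algebra.FormallyUnramified ℚ K := Algebra.FormallyUnramified.of_isSeparable ℚ K
  have h2 : Algebra.FormallyUnramified k (k ⊗[ℚ] K) := inferInstance
  have h4 : Module.Finite k (k ⊗[ℚ] K) := inferInstance
  have h3 : IsReduced (k ⊗[ℚ] K) := Algebra.FormallyUnramified.isReduced_of_field k _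
  have h5 : IsArtinianRing (k ⊗[ℚ] K) := IsArtinianRing.of_finite k _
  exact IsArtinianRing.isSemisimpleRing_of_isReduced _

/-- A `k`-linear section of `k ⊗ K → L` compatible with multiplication by `K`. -/
theorem exists_section [IsScalarTower ℚ k L] (σ : K →+* L)
    (hsurj : Function.Surjective (phiA (k := k) σ)) :
    ∃ s : L →ₗ[k] (k ⊗[ℚ] K), (∀ c, phiA (k := k) σ (s c) = c) ∧
      ∀ (a : K) (c : L), s (σ a * c) = (1 ⊗ₜ a) * s c := by
  have := semisimple_tensor (k := k) (K := K)
  let m : Ideal (k ⊗[ℚ] K) := RingHom.ker (phiA (k := k) σ)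
  obtain ⟨m', hm'⟩ := exists_isCompl m
  have h1 : (1 : k ⊗[ℚ] K) ∈ m ⊔ m' := by rw [hm'.sup_eq_top]; trivial
  obtain ⟨u, hu, e, he, hue⟩ := Submodule.mem_sup.1 h1
  have he1 : phiA (k := k) σ e = 1 := by
    have h2 := congrArg (phiA (k := k) σ) hue
    rw [map_add, map_one, (RingHom.mem_ker).1 hu, zero_add] at h2
    exact h2
  have hker : ∀ a, phiA (k := k) σ a = 0 → a * e = 0 := by
    intro a ha
    have h2 : a * e ∈ m := Ideal.mul_mem_right _ _ ((RingHom.mem_ker).2 ha)
    have h3 : a * e ∈ m' := Ideal.mul_mem_left _ _ he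
    have h4 : a * e ∈ m ⊓ m' := ⟨h2, h3⟩
    rw [hm'.inf_eq_bot] at h4
    exact (Submodule.mem_bot _).1 h4
  obtain ⟨g, hg⟩ := (phiA (k := k) σ).toLinearMap.exists_rightInverse_of_surjective
    (LinearMap.range_eq_top.2 hsurj)
  have hg' : ∀ c, phiA (k := k) σ (g c) = c := fun c => LinearMap.congr_fun hg c
  refine ⟨(LinearMap.mulRight k e).comp g, ?_, ?_⟩
  · intro c
    rw [LinearMap.comp_apply, LinearMap.mulRight_apply, map_mul, he1, mul_one, hg']
  · intro a c
    rw [LinearMap.comp_apply, LinearMap.comp_apply, LinearMap.mulRight_apply,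
      LinearMap.mulRight_apply, ← mul_assoc, ← sub_eq_zero, ← sub_mul]
    apply hker
    rw [map_sub, hg', map_mul, hg', phiA_tmul]
    simp

end Alg

section Top

variable {K : Type} [Field K] [NumberField K] {L : Type} [NontriviallyNormedField L]
  {L0 : Type} [NontriviallyNormedField L0] [CompleteSpace L0]

/-- Coordinates: the data comparing points over `K` near points over `L` with rational points of
the restriction of scalars near points over `L0`. -/
theorem exists_coord (σ : K →+* L) (hσ : DenseRange σ) (σ0 : ℚ →+* L0) (hσ0 : DenseRange σ0)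
    (j : L0 →+* L) (hj : Isometry j) {d : ℕ} (b : Module.Basis (Fin d) ℚ K) :
    ∃ (φ : (Fin d → L0) → L) (s : L → (Fin d → L0)), Continuous φ ∧ Continuous s ∧
      (∀ c, φ (s c) = c) ∧ (∀ a : K, φ (fun i => σ0 (b.repr a i)) = σ a) ∧
      ∀ (m : ℕ) (y : Fin m → K) (c : L), c ≠ 0 → ∀ W : Set (Fin m → Fin d → L0), IsOpen W →
        (fun i => s (c * σ (y i))) ∈ W →
        ∃ a : K, a ≠ 0 ∧ (fun i k => σ0 (b.repr (a * y i) k)) ∈ W := by
  classical
  have hcharL : CharZero L := (RingHom.charZero_iff σ.injective).1 inferInstance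
  have hcharL0 : CharZero L0 := (RingHom.charZero_iff σ0.injective).1 inferInstance
  let _ : Algebra L0 L := j.toAlgebra
  have hjalg : ∀ x, algebraMap L0 L x = j x := fun _ => rfl
  have htower : IsScalarTower ℚ L0 L := IsScalarTower.of_algebraMap_eq' (Subsingleton.elim _ _)
  have hσ0alg : ∀ q : ℚ, algebraMap ℚ L0 q = σ0 q := fun q =>
    RingHom.congr_fun (Subsingleton.elim _ _) q
  let instA : NormedAlgebra L0 L :=
    { j.toAlgebra with
      norm_smul_le := fun a x => by
        rw [Algebra.smul_def, norm_mul]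
        have h : ‖j a‖ = ‖a‖ := by
          have := hj.dist_eq a 0
          rwa [map_zero, dist_zero_right, dist_zero_right] at this
        exact le_of_eq (by rw [← h]; rfl) }
  let A := L0 ⊗[ℚ] K
  let bA : Module.Basis (Fin d) L0 A := Algebra.TensorProduct.basis L0 b
  have hbA : ∀ i, bA i = 1 ⊗ₜ b i := fun i => Algebra.TensorProduct.basis_apply b i
  -- coordinates of `1 ⊗ a`
  have hcoord : ∀ a : K, bA.equivFun ((1 : L0) ⊗ₜ[ℚ] a) = fun i => σ0 (b.repr a i) := by
    intro a
    funext i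
    rw [Module.Basis.equivFun_apply, Algebra.TensorProduct.basis_repr_tmul, one_smul,
      Finsupp.mapRange_apply, hσ0alg]
  have hcoord' : ∀ a : K, bA.equivFun.symm (fun i => σ0 (b.repr a i)) = (1 : L0) ⊗ₜ[ℚ] a := by
    intro a
    rw [← hcoord a, LinearEquiv.symm_apply_apply]
  -- the map `φ`
  let φl : (Fin d → L0) →ₗ[L0] L :=
    (phiA (k := L0) σ).toLinearMap.comp bA.equivFun.symm.toLinearMap
  have hφc : Continuous φl := LinearMap.continuous_of_finiteDimensional φl
  have hφK : ∀ a : K, φl (fun i => σ0 (b.repr a i)) = σ a := by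
    intro a
    show phiA (k := L0) σ (bA.equivFun.symm _) = σ a
    rw [hcoord', phiA_tmul, map_one, one_mul]
  -- surjectivity
  have hrange : LinearMap.range φl = ⊤ := by
    have hfin : FiniteDimensional L0 (LinearMap.range φl) := inferInstance
    have hcl : IsClosed (LinearMap.range φl : Set L) :=
      (LinearMap.range φl).closed_of_finiteDimensional
    rw [Submodule.eq_top_iff']
    intro x
    have h1 : closure (Set.range σ) ⊆ (LinearMap.range φl : Set L) :=
      closure_minimal (by rintro _ ⟨y, rfl⟩; exact ⟨_, hφK y⟩) hcl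
    exact h1 (hσ x)
  have hsurj : Function.Surjective (phiA (k := L0) σ) := by
    intro x
    obtain ⟨w, hw⟩ := LinearMap.range_eq_top.1 hrange x
    exact ⟨bA.equivFun.symm w, hw⟩
  have hfinL : FiniteDimensional L0 L :=
    Module.Finite.of_surjective φl (LinearMap.range_eq_top.1 hrange)
  obtain ⟨s, hs1, hs2⟩ := exists_section (k := L0) σ hsurj
  let sl : L →ₗ[L0] (Fin d → L0) := bA.equivFun.toLinearMap.comp s
  have hsc : Continuous sl := LinearMap.continuous_of_finiteDimensional sl
  have hslinv : ∀ c, φl (sl c) = c := by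
    intro c
    show phiA (k := L0) σ (bA.equivFun.symm (bA.equivFun (s c))) = c
    rw [LinearEquiv.symm_apply_apply, hs1]
  refine ⟨φl, sl, hφc, hsc, hslinv, hφK, ?_⟩
  intro m y c hc W hW hyW
  let Λ : (Fin d → L0) →ₗ[L0] (Fin m → Fin d → L0) :=
    LinearMap.pi fun i => bA.equivFun.toLinearMap.comp
      ((LinearMap.mulLeft L0 ((1 : L0) ⊗ₜ[ℚ] y i)).comp bA.equivFun.symm.toLinearMap)
  have hΛc : Continuous Λ := LinearMap.continuous_of_finiteDimensional Λ
  have hΛ1 : Λ (sl c) = fun i => sl (c * σ (y i)) := by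
    funext i
    show bA.equivFun ((1 : L0) ⊗ₜ[ℚ] y i * bA.equivFun.symm (bA.equivFun (s c))) = bA.equivFun (s _)
    rw [LinearEquiv.symm_apply_apply, ← hs2, mul_comm c]
  have hΛ2 : ∀ a : K, Λ (fun k => σ0 (b.repr a k)) = fun i k => σ0 (b.repr (a * y i) k) := by
    intro a
    funext i
    show bA.equivFun ((1 : L0) ⊗ₜ[ℚ] y i * bA.equivFun.symm _) = _
    rw [hcoord', Algebra.TensorProduct.tmul_mul_tmul, one_mul, hcoord, mul_comm a]
  have hopen : IsOpen (Λ ⁻¹' W ∩ {w | w ≠ 0}) := (hW.preimage hΛc).inter isOpen_ne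
  have hmem : sl c ∈ Λ ⁻¹' W ∩ {w | w ≠ 0} := by
    refine ⟨?_, ?_⟩
    · show Λ (sl c) ∈ W
      rw [hΛ1]; exact hyW
    · intro h0
      apply hc
      rw [← hslinv c, h0, map_zero]
  have hd : DenseRange (Pi.map fun _ : Fin d => (σ0 : ℚ → L0)) := DenseRange.piMap fun _ => hσ0
  obtain ⟨q, hq⟩ := hd.exists_mem_open hopen ⟨_, hmem⟩
  have hq2 : (Pi.map (fun _ : Fin d => (σ0 : ℚ → L0)) q) =
      fun k => σ0 (b.repr (b.equivFun.symm q) k) := by
    funext k
    rw [Pi.map_apply]
    congr 1
    rw [← Module.Basis.equivFun_apply, LinearEquiv.apply_symm_apply]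
  rw [hq2] at hq
  refine ⟨b.equivFun.symm q, ?_, ?_⟩
  · intro h0
    apply hq.2
    rw [h0]
    funext k
    simp
  · have := hq.1
    rw [Set.mem_preimage, hΛ2] at this
    exact this

end Top

end Pool.Agent.MazurC
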