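import Mathlib
import Pool.Agent.MazurC.Weil
import Pool.Agent.MazurC.Quartic
import Pool.Agent.MazurC.CubicFinal

/-!
Reduction of Mazur's question to quartic hypersurfaces over the rationals.
-/

namespace Pool.Agent.MazurC

open MvPolynomial Topology

section Red

variable {K : Type} [Field K] [NumberField K] {n d : ℕ}

/-- The `K`-point with given rational coordinates. -/
noncomputable def Yv (b : Module.Basis (Fin d) ℚ K) (z : Fin (n + 1) × Fin d → ℚ) :
    Fin (n + 1) → K :=
  fun i => b.equivFun.symm fun k => z (i, k)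

theorem repr_Yv (b : Module.Basis (Fin d) ℚ K) (z : Fin (n + 1) × Fin d → ℚ) (i : Fin (n + 1))
    (k : Fin d) : b.repr (Yv b z i) k = z (i, k) := by
  rw [← Module.Basis.equivFun_apply, Yv, LinearEquiv.apply_symm_apply]

theorem Yv_repr (b : Module.Basis (Fin d) ℚ K) (y : Fin (n + 1) → K) :
    Yv b (fun ik => b.repr (y ik.1) ik.2) = y := by
  funext i
  rw [Yv]
  apply b.equivFun.injective
  rw [LinearEquiv.apply_symm_apply]
  funext k
  rw [Module.Basis.equivFun_apply]

theorem Yv_smul (b : Module.Basis (Fin d) ℚ K) (q : ℚ) (z : Fin (n + 1) × Fin d → ℚ) :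
    Yv b (q • z) = (algebraMap ℚ K q) • Yv b z := by
  funext i
  rw [Pi.smul_apply, smul_eq_mul, ← Algebra.smul_def, Yv, Yv, ← map_smul]
  rfl

theorem Yv_eq_zero (b : Module.Basis (Fin d) ℚ K) {z : Fin (n + 1) × Fin d → ℚ}
    (h : Yv b z = 0) : z = 0 := by
  funext ⟨i, k⟩
  rw [← repr_Yv b z i k, h]
  simp

theorem coordPoly (b : Module.Basis (Fin d) ℚ K) (f : MvPolynomial (Fin (n + 1)) K) :
    ∀ k, ∃ g : MvPolynomial (Fin (n + 1) × Fin d) ℚ,
      ∀ z, eval z g = b.repr (eval (Yv b z) f) k := by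
  induction f using MvPolynomial.induction_on with
  | C a => exact fun k => ⟨C (b.repr a k), fun z => by simp⟩
  | add p q hp hq =>
    intro k
    obtain ⟨g, hg⟩ := hp k
    obtain ⟨g', hg'⟩ := hq k
    exact ⟨g + g', fun z => by simp [hg, hg']⟩
  | mul_X p i hp =>
    choose g hg using hp
    intro k
    refine ⟨∑ l, ∑ m, g l * X (i, m) * C (b.repr (b l * b m) k), fun z => ?_⟩
    rw [map_mul, eval_X]
    have h1 : ∀ a c : K, b.repr (a * c) k
        = ∑ l, ∑ m, b.repr a l * b.repr c m * b.repr (b l * b m) k := by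
      intro a c
      conv_lhs => rw [← b.sum_repr a, ← b.sum_repr c]
      simp only [Finset.sum_mul_sum, smul_mul_smul_comm, map_sum, map_smul, Finsupp.finsetSum_apply,
        Finsupp.smul_apply, smul_eq_mul]
    rw [h1]
    simp only [map_sum, map_mul, eval_X, eval_C, hg, repr_Yv]

theorem exists_T (b : Module.Basis (Fin d) ℚ K) (S : Set (MvPolynomial (Fin (n + 1)) K)) :
    ∃ T : Finset (MvPolynomial (Fin (n + 1) × Fin d) ℚ), ∀ z,
      (∀ g ∈ T, eval z g = 0) ↔ ∀ s ∈ S, eval (Yv b z) s = 0 := by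
  classical
  let I : Ideal (MvPolynomial (Fin (n + 1) × Fin d) ℚ) :=
    { carrier := {g | ∀ z, (∀ s ∈ S, eval (Yv b z) s = 0) → eval z g = 0}
      add_mem' := fun {g h} hg hh z hz => by rw [map_add, hg z hz, hh z hz, add_zero]
      zero_mem' := fun z _ => by simp
      smul_mem' := fun c g hg z hz => by rw [smul_eq_mul, map_mul, hg z hz, mul_zero] }
  obtain ⟨T, hT⟩ := (isNoetherianRing_iff_ideal_fg _).1
    (inferInstance : IsNoetherianRing (MvPolynomial (Fin (n + 1) × Fin d) ℚ)) I
  refine ⟨T, fun z => ⟨fun h s hs => ?_, fun h g hg => ?_⟩⟩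
  · have h1 : ∀ g ∈ I, eval z g = 0 := by
      intro g hg
      rw [← hT] at hg
      have h2 : Ideal.span (T : Set (MvPolynomial (Fin (n + 1) × Fin d) ℚ)) ≤
          RingHom.ker (eval z) := by
        rw [Ideal.span_le]
        intro g hg
        exact h g hg
      exact h2 hg
    apply b.repr.injective
    ext k
    obtain ⟨g, hg⟩ := coordPoly b s k
    rw [← hg z, h1 g ?_]
    · simp
    · intro z' hz'
      rw [hg, hz' s hs]
      simp
  · have h1 : g ∈ I := by
      rw [← hT]; exact Ideal.subset_span hg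
    exact h1 z h

theorem eval₂_comp_rat {L0 κ : Type} [Field L0] (σ0 : ℚ →+* L0) (z : κ → ℚ)
    (p : MvPolynomial κ ℚ) : eval₂ σ0 (fun i => σ0 (z i)) p = σ0 (eval z p) := by
  induction p using MvPolynomial.induction_on with
  | C a => simp
  | add p q hp hq => rw [eval₂_add, hp, hq, map_add, map_add]
  | mul_X p i hp => rw [eval₂_mul, hp, eval₂_X, map_mul, map_mul, eval_X]

variable {L : Type} [NontriviallyNormedField L] {L0 : Type} [NontriviallyNormedField L0]

theorem continuous_eval₂' {κ : Type} [Fintype κ] (σ0 : ℚ →+* L0) (p : MvPolynomial κ ℚ) :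
    Continuous fun w : κ → L0 => eval₂ σ0 w p := by
  induction p using MvPolynomial.induction_on with
  | C a => simp only [eval₂_C]; exact continuous_const
  | add p q hp hq => simp only [eval₂_add]; exact hp.add hq
  | mul_X p i hp => simp only [eval₂_mul, eval₂_X]; exact hp.mul (continuous_apply i)

/-- The recovery of the local ideal of `X` from that of the quartic. -/
def recov {M : ℕ} (b : Module.Basis (Fin d) ℚ K) (ε : Fin (n + 1) × Fin d → Fin (M + 1))
    (J : Set (MvPolynomial (Fin (M + 1)) ℚ)) : Set (MvPolynomial (Fin (n + 1)) K) :=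
  {f | ∀ (D : ℕ) (k : Fin d) (h : MvPolynomial (Fin (M + 1)) ℚ),
    (∀ v, eval v h = b.repr (eval (Yv b fun ik => v (ε ik)) (homogeneousComponent D f)) k) →
      h ∈ J}

theorem reduction (σ : K →+* L) (hσ : DenseRange σ) [CompleteSpace L0] (σ0 : ℚ →+* L0)
    (hσ0 : DenseRange σ0) (j : L0 →+* L) (hj : Isometry j) (b : Module.Basis (Fin d) ℚ K)
    (S : Set (MvPolynomial (Fin (n + 1)) K)) (hS : ∀ f ∈ S, ∃ e : ℕ, f.IsHomogeneous e) :
    ∃ (M : ℕ) (G : MvPolynomial (Fin (M + 1)) ℚ), G.IsHomogeneous 4 ∧ Irreducible G ∧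
      ∃ R : Set (MvPolynomial (Fin (M + 1)) ℚ) → Set (MvPolynomial (Fin (n + 1)) K),
        ∀ x : Fin (n + 1) → L, x ≠ 0 → IsLimit σ S x → ∃ w : Fin (M + 1) → L0, w ≠ 0 ∧
          eval₂ σ0 w G = 0 ∧ localIdeal σ S x = R (localIdeal σ0 {G} w) := by
  classical
  obtain ⟨φ, s, hφ, hs, hφs, hφK, happrox⟩ := exists_coord σ hσ σ0 hσ0 j hj b
  obtain ⟨T, hT⟩ := exists_T b S
  obtain ⟨M, G, o, ε, p, hG4, hGirr, hpo, hpε, hG1, hG2⟩ := main_construct T
  refine ⟨M, G, hG4, hGirr, recov b ε, ?_⟩
  intro x hx0 hxlim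
  -- the point over `L0`
  set xt : Fin (n + 1) × Fin d → L0 := fun ik => s (x ik.1) ik.2 with hxt
  let P : (Fin (n + 1) × Fin d → L0) → (Fin (M + 1) → L0) := fun w jj => eval₂ σ0 w (p jj)
  have hPc : Continuous P := continuous_pi fun jj => continuous_eval₂' σ0 (p jj)
  have hPo : ∀ w, P w o = 1 := fun w => by simp [P, hpo]
  have hPε : ∀ w ik, P w (ε ik) = w ik := fun w ik => by simp [P, hpε]
  have hPrat : ∀ z : Fin (n + 1) × Fin d → ℚ, P (fun ik => σ0 (z ik))
      = fun jj => σ0 (eval z (p jj)) := fun z => by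
    funext jj
    exact eval₂_comp_rat σ0 z (p jj)
  -- maps between `κ → L0` and `Fin (n+1) → L`
  let φ' : (Fin (n + 1) × Fin d → L0) → (Fin (n + 1) → L) := fun w i => φ fun k => w (i, k)
  have hφ'c : Continuous φ' := by
    refine continuous_pi fun i => hφ.comp ?_
    exact continuous_pi fun k => continuous_apply (i, k)
  have hφ'x : φ' xt = x := by
    funext i
    exact hφs (x i)
  have hφ'rat : ∀ z : Fin (n + 1) × Fin d → ℚ, φ' (fun ik => σ0 (z ik))
      = fun i => σ (Yv b z i) := by
    intro z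
    funext i
    have := hφK (Yv b z i)
    rw [← this]
    show φ _ = φ _
    congr 1
    funext k
    rw [repr_Yv]
  have hxt0 : xt ≠ 0 := by
    intro h
    apply hx0
    have hz0 : (fun ik => σ0 ((0 : Fin (n + 1) × Fin d → ℚ) ik)) = 0 := by
      funext ik; simp
    have hY0 : Yv b (0 : Fin (n + 1) × Fin d → ℚ) = 0 := by
      funext i
      show b.equivFun.symm 0 = 0
      exact map_zero _
    have h1 := hφ'rat 0
    rw [hz0, ← h, hφ'x, hY0] at h1
    rw [h1]
    funext i
    simp
  -- key equivalence 1, first direction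
  have key1 : ∀ U ∈ 𝓝 x, ∃ V ∈ 𝓝 xt, ∀ z : Fin (n + 1) × Fin d → ℚ,
      (fun ik => σ0 (z ik)) ∈ V → Yv b z ≠ 0 ∧ (fun i => (1 : L) * σ (Yv b z i)) ∈ U := by
    intro U hU
    refine ⟨φ' ⁻¹' U ∩ {w | w ≠ 0}, Filter.inter_mem ?_ (isOpen_ne.mem_nhds hxt0), ?_⟩
    · exact hφ'c.continuousAt.preimage_mem_nhds (by rw [hφ'x]; exact hU)
    · rintro z ⟨hz1, hz2⟩
      refine ⟨?_, ?_⟩
      · intro h
        apply hz2
        rw [Yv_eq_zero b h]
        funext ik; simp
      · rw [Set.mem_preimage, hφ'rat] at hz1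
        simpa using hz1
  -- second direction
  have key2 : ∀ V ∈ 𝓝 xt, ∃ U ∈ 𝓝 x, ∀ y : Fin (n + 1) → K, ∀ c : L, c ≠ 0 →
      (fun i => c * σ (y i)) ∈ U → ∃ a : K, a ≠ 0 ∧
        (fun ik : Fin (n + 1) × Fin d => σ0 (b.repr (a * y ik.1) ik.2)) ∈ V := by
    intro V hV
    obtain ⟨V', hV'V, hV'o, hxV'⟩ := mem_nhds_iff.1 hV
    let s' : (Fin (n + 1) → L) → (Fin (n + 1) × Fin d → L0) := fun x ik => s (x ik.1) ik.2
    have hs'c : Continuous s' := by
      refine continuous_pi fun ik => ?_
      exact (continuous_apply ik.2).comp (hs.comp (continuous_apply ik.1))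
    let cur : (Fin (n + 1) → Fin d → L0) → (Fin (n + 1) × Fin d → L0) := fun w ik => w ik.1 ik.2
    have hcur : Continuous cur := by
      refine continuous_pi fun ik => ?_
      exact (continuous_apply ik.2).comp (continuous_apply ik.1)
    refine ⟨s' ⁻¹' V', hs'c.continuousAt.preimage_mem_nhds (hV'o.mem_nhds hxV'), ?_⟩
    intro y c hc hy
    obtain ⟨a, ha, ha2⟩ := happrox (n + 1) y c hc (cur ⁻¹' V') (hV'o.preimage hcur) hy
    exact ⟨a, ha, hV'V ha2⟩
  -- the limit property
  have hlim : ∀ V ∈ 𝓝 xt, ∃ z : Fin (n + 1) × Fin d → ℚ, (fun ik => σ0 (z ik)) ∈ V ∧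
      ∀ s ∈ S, eval (Yv b z) s = 0 := by
    intro V hV
    obtain ⟨U, hU, hU2⟩ := key2 V hV
    obtain ⟨y, hy0, hyS, c, hc, hcU⟩ := hxlim U hU
    obtain ⟨a, ha, haV⟩ := hU2 y c hc hcU
    refine ⟨fun ik => b.repr (a * y ik.1) ik.2, haV, ?_⟩
    intro g hg
    have h1 : Yv b (fun ik => b.repr (a * y ik.1) ik.2) = a • y := Yv_repr b (a • y)
    rw [h1]
    obtain ⟨e, he⟩ := hS g hg
    rw [eval_smul_hom he, hyS g hg, mul_zero]
  have hw0 : P xt ≠ 0 := by
    intro h
    have h1 := hPo xt
    rw [h] at h1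
    exact zero_ne_one h1
  refine ⟨P xt, hw0, ?_, ?_⟩
  · by_contra hne
    have hc : Continuous fun w => eval₂ σ0 (P w) G := (continuous_eval₂' σ0 G).comp hPc
    have hopen : {w | eval₂ σ0 (P w) G ≠ 0} ∈ 𝓝 xt :=
      (isOpen_ne_fun hc continuous_const).mem_nhds hne
    obtain ⟨z, hz, hzS⟩ := hlim _ hopen
    apply hz
    show eval₂ σ0 (P fun ik => σ0 (z ik)) G = 0
    rw [hPrat, eval₂_comp_rat, hG1 z ((hT z).2 hzS), map_zero]
  · ext f
    constructor
    · -- from `X` to the quartic
      rintro ⟨U, hU, hfU⟩ D k h hh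
      obtain ⟨V, hV, hV2⟩ := key1 U hU
      have hf : ∀ z : Fin (n + 1) × Fin d → ℚ, (fun ik => σ0 (z ik)) ∈ V →
          (∀ s ∈ S, eval (Yv b z) s = 0) → eval (Yv b z) (homogeneousComponent D f) = 0 := by
        intro z hz hzS
        obtain ⟨h1, h2⟩ := hV2 z hz
        exact component_eval_eq_zero f _ (hfU _ h1 hzS ⟨1, one_ne_zero, h2⟩) D
      -- neighbourhood of `P xt`
      let Ψ : (Fin (M + 1) → L0) → (Fin (n + 1) × Fin d → L0) := fun w ik => w (ε ik) / w o
      have hΨx : Ψ (P xt) = xt := by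
        funext ik
        simp only [Ψ, hPo, hPε, div_one]
      have hΨc : ContinuousAt Ψ (P xt) := by
        refine continuousAt_pi.2 fun ik => ?_
        refine ContinuousAt.div (continuous_apply _).continuousAt
          (continuous_apply _).continuousAt ?_
        rw [hPo]; exact one_ne_zero
      have hopen : {w : Fin (M + 1) → L0 | w o ≠ 0} ∈ 𝓝 (P xt) := by
        refine (isOpen_ne_fun (continuous_apply o) continuous_const).mem_nhds ?_
        rw [Set.mem_ofPred_eq, hPo]; exact one_ne_zero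
      refine ⟨Ψ ⁻¹' V ∩ {w | w o ≠ 0}, Filter.inter_mem
        (hΨc.preimage_mem_nhds (by rw [hΨx]; exact hV)) hopen, ?_⟩
      rintro v hv0 hvG ⟨c, hc, hcV, hco⟩ t
      have hvG' : eval v G = 0 := hvG G rfl
      have hco' : c * σ0 (v o) ≠ 0 := hco
      have hvo : v o ≠ 0 := by
        intro h0
        apply hco'
        rw [h0, map_zero, mul_zero]
      obtain ⟨h3, h4⟩ := hG2 v hvo hvG'
      have hzV : (fun ik => σ0 (v (ε ik) / v o)) ∈ V := by
        have h5 : Ψ (fun i => c * σ0 (v i)) = fun ik => σ0 (v (ε ik) / v o) := by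
          funext ik
          show c * σ0 (v (ε ik)) / (c * σ0 (v o)) = _
          rw [mul_div_mul_left _ _ hc, map_div₀]
        have h6 : Ψ (fun i => c * σ0 (v i)) ∈ V := hcV
        rwa [h5] at h6
      have hzS := (hT _).1 h4
      have h7 := hf _ hzV hzS
      rw [hh]
      have h8 : (Yv b fun ik => (t • v) (ε ik)) =
          (algebraMap ℚ K (t * v o)) • Yv b (fun ik => v (ε ik) / v o) := by
        rw [← Yv_smul]
        congr 1
        funext ik
        simp only [Pi.smul_apply, smul_eq_mul]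
        field_simp
      rw [h8, eval_smul_hom (homogeneousComponent_isHomogeneous D f), h7, mul_zero]
      simp
    · -- from the quartic to `X`
      intro hf
      -- a neighbourhood of `xt` for each component
      have h1 : ∀ D k, ∃ V ∈ 𝓝 xt, ∀ z : Fin (n + 1) × Fin d → ℚ, (fun ik => σ0 (z ik)) ∈ V →
          (∀ s ∈ S, eval (Yv b z) s = 0) →
          b.repr (eval (Yv b z) (homogeneousComponent D f)) k = 0 := by
        intro D k
        obtain ⟨g, hg⟩ := coordPoly b (homogeneousComponent D f) k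
        have hmem := hf D k (rename ε g) (fun v => by
          rw [eval_rename, hg]; rfl)
        obtain ⟨U', hU', hU2⟩ := hmem
        refine ⟨P ⁻¹' U', hPc.continuousAt.preimage_mem_nhds hU', ?_⟩
        intro z hz hzS
        let v : Fin (M + 1) → ℚ := fun jj => eval z (p jj)
        have hvo : v o = 1 := by simp [v, hpo]
        have hv0 : v ≠ 0 := by
          intro h; rw [h] at hvo; exact zero_ne_one hvo
        have hvG : eval v G = 0 := hG1 z ((hT z).2 hzS)
        have h2 := hU2 v hv0 (by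
          intro g' hg'
          rw [Set.mem_singleton_iff.1 hg']; exact hvG) ⟨1, one_ne_zero, by
            rw [Set.mem_preimage, hPrat] at hz
            simpa using hz⟩ 1
        rw [one_smul, eval_rename, hg] at h2
        have h3 : v ∘ ε = z := by
          funext ik
          simp [v, hpε]
        rwa [h3] at h2
      choose V hV hV2 using h1
      obtain ⟨U, hU, hU2⟩ := key2 (⋂ D ∈ Finset.range (f.totalDegree + 1), ⋂ k, V D k) (by
        rw [Filter.biInter_finset_mem]
        intro D _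
        rw [Filter.iInter_mem]
        intro k
        exact hV D k)
      refine ⟨U, hU, ?_⟩
      rintro y hy0 hyS ⟨c, hc, hcU⟩ t
      obtain ⟨a, ha, haV⟩ := hU2 y c hc hcU
      have h3 : Yv b (fun ik => b.repr (a * y ik.1) ik.2) = a • y := Yv_repr b (a • y)
      have h4 : ∀ D ∈ Finset.range (f.totalDegree + 1),
          eval y (homogeneousComponent D f) = 0 := by
        intro D hD
        have h5 : eval (a • y) (homogeneousComponent D f) = 0 := by
          apply b.repr.injective
          ext k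
          have h6 := hV2 D k (fun ik => b.repr (a * y ik.1) ik.2) (by
            have := Set.mem_iInter₂.1 haV D hD
            exact Set.mem_iInter.1 this k) (by
              intro g hg
              rw [h3]
              obtain ⟨e, he⟩ := hS g hg
              rw [eval_smul_hom he, hyS g hg, mul_zero])
          rw [h3] at h6
          rw [h6]; simp
        rw [eval_smul_hom (homogeneousComponent_isHomogeneous D f)] at h5
        exact (mul_eq_zero.1 h5).resolve_left (pow_ne_zero _ ha)
      rw [← sum_homogeneousComponent f, map_sum]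
      refine Finset.sum_eq_zero fun D hD => ?_
      rw [eval_smul_hom (homogeneousComponent_isHomogeneous D f), h4 D hD, mul_zero]

end Red

end Pool.Agent.MazurC
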