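import Mathlib
import Pool.Agent.MazurC.Reduction

/-!
The closure of the rationals in a completion of a number field, and the final reduction.
-/

namespace Pool.Agent.MazurC

open MvPolynomial Topology

/-- The conclusion of Mazur's question for the closed subset `X` of projective space defined by
`S`: the ideals of the local Zariski closures of `X(K)` at the points of `X(L)` take only finitely
many values. -/
def FinitelyMany {K : Type} [Field K] {L : Type} [NontriviallyNormedField L] (σ : K →+* L) {n : ℕ}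
    (S : Set (MvPolynomial (Fin (n + 1)) K)) : Prop :=
  {J : Set (MvPolynomial (Fin (n + 1)) K) | ∃ x : Fin (n + 1) → L, x ≠ 0 ∧
    (∀ g ∈ S, eval₂ σ x g = 0) ∧ J = localIdeal σ S x}.Finite

theorem exists_L0 {K : Type} [Field K] [NumberField K] {L : Type} [NontriviallyNormedField L]
    [CompleteSpace L] (σ : K →+* L) (hσ : DenseRange σ) :
    ∃ (L0 : Type) (_ : NontriviallyNormedField L0), ∃ (_ : CompleteSpace L0) (σ0 : ℚ →+* L0)
      (j : L0 →+* L), DenseRange σ0 ∧ Isometry j := by
  let ι : ℚ →+* L := σ.comp (algebraMap ℚ K)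
  obtain ⟨q0, hq0, hq1⟩ := absQ_nontrivial σ hσ
  let L0 : Subfield L := ι.fieldRange.topologicalClosure
  have hL0 : IsClosed (L0 : Set L) := by
    show IsClosed (closure _)
    exact isClosed_closure
  have hι : ∀ q, ι q ∈ L0 := fun q => subset_closure ⟨q, rfl⟩
  let instN : NontriviallyNormedField L0 :=
    NontriviallyNormedField.ofNormNeOne ⟨⟨ι q0, hι q0⟩, by
      intro h
      have := congrArg Subtype.val h
      simp only [ZeroMemClass.coe_zero] at this
      exact hq0 ((map_eq_zero ι).1 this), hq1⟩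
  have hcomp : CompleteSpace L0 := hL0.completeSpace_coe
  refine ⟨L0, instN, hcomp, ι.codRestrict L0 hι, L0.subtype, ?_, ?_⟩
  · intro x
    have hx : (x : L) ∈ closure (Set.range ι) := x.2
    rw [Metric.mem_closure_iff] at hx ⊢
    intro e he
    obtain ⟨y, ⟨q, rfl⟩, hq⟩ := hx e he
    exact ⟨ι.codRestrict L0 hι q, ⟨q, rfl⟩, hq⟩
  · exact Isometry.of_dist_eq fun x y => rfl

theorem finitelyMany_of_quartic {K : Type} [Field K] [NumberField K] {L : Type}
    [NontriviallyNormedField L] (σ : K →+* L) (hσ : DenseRange σ) {L0 : Type}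
    [NontriviallyNormedField L0] [CompleteSpace L0] (σ0 : ℚ →+* L0) (hσ0 : DenseRange σ0)
    (j : L0 →+* L) (hj : Isometry j)
    (hQ : ∀ (n : ℕ) (G : MvPolynomial (Fin (n + 1)) ℚ), G.IsHomogeneous 4 → Irreducible G →
      FinitelyMany σ0 {G})
    {n : ℕ} (S : Set (MvPolynomial (Fin (n + 1)) K)) (hS : ∀ f ∈ S, ∃ e : ℕ, f.IsHomogeneous e) :
    FinitelyMany σ S := by
  obtain ⟨M, G, hG4, hGirr, R, hR⟩ := reduction σ hσ σ0 hσ0 j hj (Module.finBasis ℚ K) S hS
  have hfin := hQ M G hG4 hGirr
  refine Set.Finite.subset ((hfin.image R).union (Set.finite_singleton Set.univ)) ?_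
  rintro J ⟨x, hx0, _, rfl⟩
  by_cases hx : IsLimit σ S x
  · left
    obtain ⟨w, hw0, hwG, hw⟩ := hR x hx0 hx
    refine ⟨localIdeal σ0 {G} w, ⟨w, hw0, ?_, rfl⟩, hw.symm⟩
    intro g hg
    rw [Set.mem_singleton_iff.1 hg]; exact hwG
  · right
    exact localIdeal_eq_univ hx

theorem span_singleton_radical_prime {K : Type} [Field K] {n : ℕ}
    {G : MvPolynomial (Fin (n + 1)) K} (hG : Irreducible G) :
    (Ideal.span ({G} : Set (MvPolynomial (Fin (n + 1)) K))).radical.IsPrime := by
  have h : (Ideal.span ({G} : Set (MvPolynomial (Fin (n + 1)) K))).IsPrime :=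
    (Ideal.span_singleton_prime hG.ne_zero).2 hG.prime
  rw [h.radical]
  exact h

end Pool.Agent.MazurC
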