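import Mathlib
import Pool.Agent.MazurC.RedFinal

/-!
In Mazur's question it is enough to consider the local Zariski closures at rational points.
-/

namespace Pool.Agent.MazurC

open MvPolynomial Topology

/-- The weak form of the conclusion of Mazur's question for the closed subset `X` of projective
space defined by `S`: the ideals of the local Zariski closures of `X(K)` at the points of `X(K)`
take only finitely many values. -/
def FinitelyManyRat {K : Type} [Field K] {L : Type} [NontriviallyNormedField L] (σ : K →+* L)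
    {n : ℕ} (S : Set (MvPolynomial (Fin (n + 1)) K)) : Prop :=
  {J : Set (MvPolynomial (Fin (n + 1)) K) | ∃ y : Fin (n + 1) → K, y ≠ 0 ∧
    (∀ g ∈ S, eval y g = 0) ∧ J = localIdeal σ S fun i => σ (y i)}.Finite

theorem eval₂_comp_gen {A B κ : Type} [CommRing A] [CommRing B] (σ : A →+* B) (z : κ → A)
    (p : MvPolynomial κ A) : eval₂ σ (fun i => σ (z i)) p = σ (eval z p) := by
  induction p using MvPolynomial.induction_on with
  | C a => simp
  | add p q hp hq => rw [eval₂_add, hp, hq, map_add, map_add]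
  | mul_X p i hp => rw [eval₂_mul, hp, eval₂_X, map_mul, map_mul, eval_X]

section Stable

variable {K : Type} [Field K] {L : Type} [NontriviallyNormedField L] (σ : K →+* L) {n : ℕ}
  (S : Set (MvPolynomial (Fin (n + 1)) K))

/-- The ideal of the rational points near `U`. -/
def ptIdeal (U : Set (Fin (n + 1) → L)) : Ideal (MvPolynomial (Fin (n + 1)) K) where
  carrier := {f | ∀ y : Fin (n + 1) → K, y ≠ 0 → (∀ g ∈ S, eval y g = 0) →
    (∃ c : L, c ≠ 0 ∧ (fun i => c * σ (y i)) ∈ U) → ∀ t : K, eval (t • y) f = 0}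
  add_mem' := fun {f g} hf hg y h0 h1 h2 t => by
    rw [map_add, hf y h0 h1 h2 t, hg y h0 h1 h2 t, add_zero]
  zero_mem' := fun y _ _ _ t => by rw [map_zero]
  smul_mem' := fun c f hf y h0 h1 h2 t => by
    rw [smul_eq_mul, map_mul, hf y h0 h1 h2 t, mul_zero]

variable {σ S}

theorem mem_localIdeal {x : Fin (n + 1) → L} {f : MvPolynomial (Fin (n + 1)) K} :
    f ∈ localIdeal σ S x ↔ ∃ U ∈ 𝓝 x, f ∈ ptIdeal σ S U := Iff.rfl

theorem ptIdeal_anti {U V : Set (Fin (n + 1) → L)} (h : U ⊆ V) :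
    ptIdeal σ S V ≤ ptIdeal σ S U := by
  intro f hf y h0 h1 ⟨c, hc, hcU⟩ t
  exact hf y h0 h1 ⟨c, hc, h hcU⟩ t

theorem exists_stable (x : Fin (n + 1) → L) : ∃ U : Set (Fin (n + 1) → L), IsOpen U ∧ x ∈ U ∧
    localIdeal σ S x = ptIdeal σ S U := by
  let A : Set (Ideal (MvPolynomial (Fin (n + 1)) K)) :=
    {I | ∃ U : Set (Fin (n + 1) → L), IsOpen U ∧ x ∈ U ∧ I = ptIdeal σ S U}
  have hA : A.Nonempty := ⟨_, Set.univ, isOpen_univ, Set.mem_univ _, rfl⟩
  obtain ⟨I, ⟨U, hU, hxU, rfl⟩, hmax⟩ := set_has_maximal_iff_noetherian.2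
    (inferInstance : IsNoetherian (MvPolynomial (Fin (n + 1)) K)
      (MvPolynomial (Fin (n + 1)) K)) A hA
  refine ⟨U, hU, hxU, ?_⟩
  ext f
  constructor
  · rintro ⟨V, hV, hfV⟩
    obtain ⟨V', hV'V, hV'o, hxV'⟩ := mem_nhds_iff.1 hV
    have h1 : ptIdeal σ S U ≤ ptIdeal σ S (U ∩ V') := ptIdeal_anti Set.inter_subset_left
    have h2 := hmax _ ⟨U ∩ V', hU.inter hV'o, ⟨hxU, hxV'⟩, rfl⟩
    have h3 : ptIdeal σ S U = ptIdeal σ S (U ∩ V') := by
      by_contra hne
      exact h2 (lt_of_le_of_ne h1 hne)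
    rw [h3]
    exact ptIdeal_anti (Set.inter_subset_right.trans hV'V) hfV
  · intro hf
    exact ⟨U, hU.mem_nhds hxU, hf⟩

theorem ptIdeal_eq_iInter {U : Set (Fin (n + 1) → L)} (hU : IsOpen U) :
    (ptIdeal σ S U : Set (MvPolynomial (Fin (n + 1)) K)) =
      ⋂₀ {J | ∃ y : Fin (n + 1) → K, y ≠ 0 ∧ (∀ g ∈ S, eval y g = 0) ∧
        (∃ c : L, c ≠ 0 ∧ (fun i => c * σ (y i)) ∈ U) ∧
        J = localIdeal σ S fun i => σ (y i)} := by
  ext f
  constructor
  · rintro hf J ⟨y, h0, h1, ⟨c, hc, hcU⟩, rfl⟩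
    have hcont : Continuous fun w : Fin (n + 1) → L => fun i => c * w i :=
      continuous_pi fun i => continuous_const.mul (continuous_apply i)
    refine ⟨(fun w : Fin (n + 1) → L => fun i => c * w i) ⁻¹' U,
      (hU.preimage hcont).mem_nhds hcU, ?_⟩
    rintro y' h0' h1' ⟨c', hc', hc'U⟩ t
    refine hf y' h0' h1' ⟨c * c', mul_ne_zero hc hc', ?_⟩ t
    have h2 : (fun i => c * (c' * σ (y' i))) ∈ U := hc'U
    simpa only [mul_assoc] using h2
  · intro hf y h0 h1 h2 t
    obtain ⟨V, hV, hfV⟩ := hf _ ⟨y, h0, h1, h2, rfl⟩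
    refine hfV y h0 h1 ⟨1, one_ne_zero, ?_⟩ t
    simpa using mem_of_mem_nhds hV

/-- It is enough to consider rational points. -/
theorem finitelyMany_of_rat (h : FinitelyManyRat σ S) : FinitelyMany σ S := by
  refine Set.Finite.subset (h.powerset.image fun A => ⋂₀ A) ?_
  rintro J ⟨x, _, _, rfl⟩
  obtain ⟨U, hU, hxU, hJ⟩ := exists_stable (σ := σ) (S := S) x
  refine ⟨_, ?_, ((hJ.trans (ptIdeal_eq_iInter hU))).symm⟩
  rintro J ⟨y, h0, h1, _, rfl⟩
  exact ⟨y, h0, h1, rfl⟩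

theorem rat_of_finitelyMany (h : FinitelyMany σ S) : FinitelyManyRat σ S := by
  refine Set.Finite.subset h ?_
  rintro J ⟨y, h0, h1, rfl⟩
  refine ⟨_, ?_, ?_, rfl⟩
  · intro h2
    apply h0
    funext i
    have := congrFun h2 i
    exact (map_eq_zero σ).1 this
  · intro g hg
    rw [eval₂_comp_gen, h1 g hg, map_zero]

end Stable

end Pool.Agent.MazurC
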