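import Mathlib
import Pool.Agent.MazurC.Rational
import Pool.Agent.MazurC.CubicFinal

/-!
Mazur's question for varieties covered by finitely many unirational families.
-/

namespace Pool.Agent.MazurC

open MvPolynomial Topology

/-- The homogeneous ideal of the closure of the image of a polynomial map `φ` from the `K`-points
of affine `r`-space to projective `n`-space: the polynomials vanishing on all lines through the
points `φ(u)`, `u ∈ K^r`. -/
def imageIdeal {K : Type} [Field K] {n r : ℕ} (φ : Fin (n + 1) → MvPolynomial (Fin r) K) :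
    Set (MvPolynomial (Fin (n + 1)) K) :=
  {f | ∀ (u : Fin r → K) (t : K), eval (t • fun i => eval u (φ i)) f = 0}

section

variable {K : Type} [Field K] {L : Type} [NontriviallyNormedField L] {σ : K →+* L}

theorem infinite_near (hσ : DenseRange σ) {ε : ℝ} (hε : 0 < ε) :
    {a : K | ‖σ a‖ < ε}.Infinite := by
  intro hfin
  have h1 : ((σ '' {a : K | ‖σ a‖ < ε}) : Set L).Finite := hfin.image _
  have h2 : IsOpen (Metric.ball (0 : L) ε \ (σ '' {a : K | ‖σ a‖ < ε})) :=
    Metric.isOpen_ball.sdiff h1.isClosed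
  have h3 : (Metric.ball (0 : L) ε \ (σ '' {a : K | ‖σ a‖ < ε})).Nonempty := by
    by_contra hne
    rw [Set.not_nonempty_iff_eq_empty, Set.sdiff_eq_empty] at hne
    have h4 : (Metric.ball (0 : L) ε).Finite := h1.subset hne
    have h5 : (Metric.ball (0 : L) ε).Infinite :=
      infinite_of_mem_nhds (0 : L) (Metric.ball_mem_nhds _ hε)
    exact h5 h4
  obtain ⟨a, ha1, ha2⟩ := hσ.exists_mem_open h2 h3
  apply ha2
  refine ⟨a, ?_, rfl⟩
  rw [Metric.mem_ball, dist_zero_right] at ha1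
  exact ha1

/-- Small points are Zariski dense. -/
theorem eq_zero_of_near (hσ : DenseRange σ) {r : ℕ} {p : MvPolynomial (Fin r) K} {ε : ℝ}
    (hε : 0 < ε) (h : ∀ u : Fin r → K, (∀ i, ‖σ (u i)‖ < ε) → eval u p = 0) : p = 0 := by
  refine MvPolynomial.funext_set (fun _ => {a : K | ‖σ a‖ < ε})
    (fun _ => infinite_near hσ hε) fun u hu => ?_
  rw [map_zero]
  exact h u fun i => hu i (Set.mem_univ i)

variable {n : ℕ} {S T : Set (MvPolynomial (Fin (n + 1)) K)}

theorem cont_eval₂ {r : ℕ} (p : MvPolynomial (Fin r) K) :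
    Continuous fun w : Fin r → L => eval₂ σ w p := by
  have h : (fun w : Fin r → L => eval₂ σ w p) = fun w => eval w (map σ p) := by
    funext w
    rw [eval_map]
  rw [h]
  exact MvPolynomial.continuous_eval _

/-- A parametrised family through a point near `U` lies in the local closure. -/
theorem mem_imageIdeal (hσ : DenseRange σ) {U : Set (Fin (n + 1) → L)} (hU : IsOpen U)
    {y : Fin (n + 1) → K} (hy : y ≠ 0) {c : L} (hc : c ≠ 0) (hcU : (fun i => c * σ (y i)) ∈ U)
    {r : ℕ} {φ : Fin (n + 1) → MvPolynomial (Fin r) K} (h0 : ∀ i, eval 0 (φ i) = y i)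
    (hX : ∀ u : Fin r → K, ∀ g ∈ S, eval (fun i => eval u (φ i)) g = 0)
    {f : MvPolynomial (Fin (n + 1)) K} (hf : f ∈ ptIdeal σ S U) : f ∈ imageIdeal φ := by
  -- the open set of good parameters
  have hcont : Continuous fun w : Fin r → L => fun i => c * eval₂ σ w (φ i) :=
    continuous_pi fun i => continuous_const.mul (cont_eval₂ (φ i))
  have hzero : (fun w : Fin r → L => fun i => c * eval₂ σ w (φ i)) 0 = fun i => c * σ (y i) := by
    funext i
    have : (0 : Fin r → L) = fun j => σ ((0 : Fin r → K) j) := by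
      funext j
      simp
    simp only [this, eval₂_comp_gen, h0]
  have hne : (fun i => c * σ (y i)) ≠ 0 := by
    intro h
    apply hy
    funext i
    have h1 := congrFun h i
    simp only [Pi.zero_apply, mul_eq_zero, hc, false_or] at h1
    exact (map_eq_zero σ).1 h1
  have hopen : IsOpen (U ∩ {0}ᶜ) := hU.inter isOpen_compl_singleton
  have hmem : (fun w : Fin r → L => fun i => c * eval₂ σ w (φ i)) ⁻¹' (U ∩ {0}ᶜ) ∈
      𝓝 (0 : Fin r → L) := by
    apply (hopen.preimage hcont).mem_nhds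
    have h1 : (fun w : Fin r → L => fun i => c * eval₂ σ w (φ i)) 0 ∈ U ∩ {0}ᶜ := by
      rw [hzero]
      exact ⟨hcU, hne⟩
    exact h1
  obtain ⟨ε, hε, hball⟩ := Metric.mem_nhds_iff.1 hmem
  intro u t
  let p : MvPolynomial (Fin r) K := bind₁ (fun i => C t * φ i) f
  have hp : ∀ u : Fin r → K, eval u p = eval (t • fun i => eval u (φ i)) f := by
    intro u
    show eval₂Hom (RingHom.id K) u (bind₁ (fun i => C t * φ i) f) = _
    rw [eval₂Hom_bind₁]
    have h1 : (fun i => (eval₂Hom (RingHom.id K) u) (C t * φ i)) = t • fun i => eval u (φ i) := by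
      funext i
      show eval u (C t * φ i) = _
      rw [map_mul, eval_C]
      rfl
    rw [h1]
    rfl
  have hp0 : p = 0 := by
    refine eq_zero_of_near hσ hε fun u hu => ?_
    rw [hp]
    have h1 : (fun i => σ (u i)) ∈ Metric.ball (0 : Fin r → L) ε := by
      rw [Metric.mem_ball, dist_zero_right, pi_norm_lt_iff hε]
      exact hu
    have h2 := hball h1
    rw [Set.mem_preimage] at h2
    simp only [eval₂_comp_gen] at h2
    refine hf _ ?_ (hX u) ⟨c, hc, h2.1⟩ t
    intro h3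
    apply h2.2
    rw [Set.mem_singleton_iff]
    funext i
    have := congrFun h3 i
    simp only [Pi.zero_apply] at this ⊢
    rw [this, map_zero, mul_zero]
  rw [← hp, hp0, map_zero]

theorem not_isLimit (hT : ∀ g ∈ T, ∃ d : ℕ, g.IsHomogeneous d) {x : Fin (n + 1) → L}
    {g : MvPolynomial (Fin (n + 1)) K} (hg : g ∈ T) (hx : eval₂ σ x g ≠ 0) :
    ¬ IsLimit σ (S ∪ T) x := by
  intro h
  obtain ⟨y, -, h1, c, -, hc⟩ := h {w | eval₂ σ w g ≠ 0}
    ((isOpen_ne.preimage (cont_eval₂ (σ := σ) g)).mem_nhds hx)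
  apply hc
  obtain ⟨d, hd⟩ := hT g hg
  have h2 : eval₂ σ (fun i => c * σ (y i)) g = c ^ d * eval₂ σ (fun i => σ (y i)) g := by
    rw [← eval_map, ← eval_map]
    exact eval_smul_hom (hd.map σ) c (fun i => σ (y i))
  rw [h2, eval₂_comp_gen, h1 g (Or.inr hg), map_zero, mul_zero]

/-- The main theorem. -/
theorem finitelyMany_of_cover (hσ : DenseRange σ) (hT : ∀ g ∈ T, ∃ d : ℕ, g.IsHomogeneous d)
    (Y : Set (Set (MvPolynomial (Fin (n + 1)) K))) (hY : Y.Finite)
    (hcover : ∀ y : Fin (n + 1) → K, y ≠ 0 → (∀ g ∈ S, eval y g = 0) →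
      (∃ g ∈ T, eval y g ≠ 0) → ∃ (r : ℕ) (φ : Fin (n + 1) → MvPolynomial (Fin r) K),
        (∀ i, eval 0 (φ i) = y i) ∧
        (∀ u : Fin r → K, ∀ g ∈ S, eval (fun i => eval u (φ i)) g = 0) ∧ imageIdeal φ ∈ Y)
    (hW : FinitelyMany σ (S ∪ T)) : FinitelyMany σ S := by
  have hfin : (Set.image2 (fun (A : Set (Set (MvPolynomial (Fin (n + 1)) K)))
      (Z : Set (MvPolynomial (Fin (n + 1)) K)) => ⋂₀ A ∩ Z) Y.powerset
      ({J : Set (MvPolynomial (Fin (n + 1)) K) | ∃ x : Fin (n + 1) → L, x ≠ 0 ∧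
        (∀ g ∈ S ∪ T, eval₂ σ x g = 0) ∧ J = localIdeal σ (S ∪ T) x} ∪ {Set.univ})).Finite :=
    (hY.powerset).image2 _ (hW.union (Set.finite_singleton _))
  refine hfin.subset ?_
  rintro J ⟨x, hx0, hxS, rfl⟩
  obtain ⟨U1, hU1, hxU1, h1⟩ := exists_stable (σ := σ) (S := S) x
  obtain ⟨U2, hU2, hxU2, h2⟩ := exists_stable (σ := σ) (S := S ∪ T) x
  have hU : IsOpen (U1 ∩ U2) := hU1.inter hU2
  have hxU : x ∈ U1 ∩ U2 := ⟨hxU1, hxU2⟩
  have e1 : localIdeal σ S x = ptIdeal σ S (U1 ∩ U2) := by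
    apply Set.Subset.antisymm
    · rw [h1]
      exact ptIdeal_anti Set.inter_subset_left
    · intro f hf
      exact ⟨U1 ∩ U2, hU.mem_nhds hxU, hf⟩
  have e2 : localIdeal σ (S ∪ T) x = ptIdeal σ (S ∪ T) (U1 ∩ U2) := by
    apply Set.Subset.antisymm
    · rw [h2]
      exact ptIdeal_anti Set.inter_subset_right
    · intro f hf
      exact ⟨U1 ∩ U2, hU.mem_nhds hxU, hf⟩
  let A : Set (Set (MvPolynomial (Fin (n + 1)) K)) :=
    {J | J ∈ Y ∧ ∃ y : Fin (n + 1) → K, y ≠ 0 ∧
      (∃ c : L, c ≠ 0 ∧ (fun i => c * σ (y i)) ∈ U1 ∩ U2) ∧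
      ∃ (r : ℕ) (φ : Fin (n + 1) → MvPolynomial (Fin r) K),
        (∀ i, eval 0 (φ i) = y i) ∧
        (∀ u : Fin r → K, ∀ g ∈ S, eval (fun i => eval u (φ i)) g = 0) ∧ J = imageIdeal φ}
  refine ⟨A, fun J hJ => hJ.1, localIdeal σ (S ∪ T) x, ?_, ?_⟩
  · by_cases hx : ∀ g ∈ S ∪ T, eval₂ σ x g = 0
    · left
      exact ⟨x, hx0, hx, rfl⟩
    · right
      push Not at hx
      obtain ⟨g, hg, hgx⟩ := hx
      have hgT : g ∈ T := by
        rcases hg with hg | hg
        · exact absurd (hxS g hg) hgx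
        · exact hg
      exact localIdeal_eq_univ (not_isLimit hT hgT hgx)
  · simp only
    rw [e1, e2]
    ext f
    constructor
    · rintro ⟨hfA, hfW⟩ y hy hyS hyU t
      by_cases hyT : ∀ g ∈ T, eval y g = 0
      · refine hfW y hy ?_ hyU t
        rintro g (hg | hg)
        · exact hyS g hg
        · exact hyT g hg
      · push Not at hyT
        obtain ⟨r, φ, p0, p1, p2⟩ := hcover y hy hyS hyT
        have h3 : f ∈ imageIdeal φ := hfA _ ⟨p2, y, hy, hyU, r, φ, p0, p1, rfl⟩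
        have h4 := h3 0 t
        simp only [p0] at h4
        exact h4
    · intro hf
      refine ⟨?_, ?_⟩
      · rintro J ⟨-, y, hy, ⟨c, hc, hcU⟩, r, φ, p0, p1, rfl⟩
        exact mem_imageIdeal hσ hU hy hc hcU p0 p1 hf
      · intro y hy hyST hyU t
        exact hf y hy (fun g hg => hyST g (Or.inl hg)) hyU t

end

end Pool.Agent.MazurC
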