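import Mathlib
import Pool.Agent.MazurC.Rational
import Pool.Agent.MazurZ.Final

set_option autoImplicit false

namespace Pool.Agent.MazurC.ReductionsOverQ

open MvPolynomial Pool.Agent.MazurC

/-- Mazur's question (for all number fields `K`, all completions `L`, all irreducible projective
varieties over `K` and all points over `L`) is equivalent to each of two special cases, both for
`K = ℚ`, hypersurfaces and local closures at rational points only:

* irreducible quartic hypersurfaces;
* the (irreducible, `ℚ`-rational) hypersurfaces `t A = B` with `A`, `B` coprime forms of degrees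
  `D`, `D + 1` not involving `t`.

The parameter `P` allows to restrict to a class of completions: any property of valued fields
inherited by isometrically embedded fields (for instance: always true; real or complex; the
absolute value induced on the rationals is equivalent to a given one). -/
theorem result (P : (F : Type) → [NontriviallyNormedField F] → Prop)
    (hP : ∀ (F F' : Type) [NontriviallyNormedField F] [NontriviallyNormedField F']
      (j : F →+* F'), Isometry j → P F' → P F) :
    List.TFAE [
      (∀ (K : Type) [Field K] [NumberField K] (L : Type) [NontriviallyNormedField L]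
        [CompleteSpace L] (σ : K →+* L), DenseRange σ → P L →
        ∀ (n : ℕ) (S : Set (MvPolynomial (Fin (n + 1)) K)),
          (∀ f ∈ S, ∃ d : ℕ, f.IsHomogeneous d) → (Ideal.span S).radical.IsPrime →
          FinitelyMany σ S),
      (∀ (L : Type) [NontriviallyNormedField L] [CompleteSpace L] (σ : ℚ →+* L), DenseRange σ →
        P L → ∀ (n : ℕ) (G : MvPolynomial (Fin (n + 1)) ℚ), G.IsHomogeneous 4 → Irreducible G →
        FinitelyManyRat σ {G}),
      (∀ (L : Type) [NontriviallyNormedField L] [CompleteSpace L] (σ : ℚ →+* L), DenseRange σ →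
        P L → ∀ (N D : ℕ) (A B : MvPolynomial (Fin (N + 1)) ℚ), A.IsHomogeneous D →
        B.IsHomogeneous (D + 1) → A ≠ 0 → IsRelPrime A B →
        FinitelyManyRat σ
          {X (Fin.last (N + 1)) * rename Fin.castSucc A - rename Fin.castSucc B})] := by
  tfae_have 1 → 2 := by
    intro h L _ _ σ hσ hL n G hG hirr
    refine rat_of_finitelyMany (h ℚ L σ hσ hL n {G} ?_ (span_singleton_radical_prime hirr))
    intro f hf
    rw [Set.mem_singleton_iff.1 hf]
    exact ⟨4, hG⟩
  tfae_have 1 → 3 := by
    intro h L _ _ σ hσ hL N D A B hA hB hA0 hAB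
    refine rat_of_finitelyMany (h ℚ L σ hσ hL (N + 1) _ ?_ (MazurZ.monoidFin_prime hA0 hAB))
    rintro _ rfl
    refine ⟨D + 1, IsHomogeneous.sub ?_ hB.rename_isHomogeneous⟩
    have := (isHomogeneous_X (R := ℚ) (Fin.last (N + 1))).mul
      (hA.rename_isHomogeneous (f := (Fin.castSucc : Fin (N + 1) → Fin (N + 2))))
    rwa [add_comm 1 D] at this
  tfae_have 2 → 1 := by
    intro h K _ _ L _ _ σ hσ hL n S hS _
    obtain ⟨L0, _, _, σ0, j, hσ0, hj⟩ := exists_L0 σ hσ
    exact finitelyMany_of_quartic σ hσ σ0 hσ0 j hj
      (fun n G hG hirr => finitelyMany_of_rat (h L0 σ0 hσ0 (hP L0 L j hj hL) n G hG hirr)) S hS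
  tfae_have 3 → 2 := by
    intro h L _ _ σ hσ hL n G hG hirr
    refine rat_of_finitelyMany (MazurZ.finite_of_monoidFin σ hσ ?_ {G} ?_)
    · intro N D A B hA hB hA0 hAB
      exact finitelyMany_of_rat (h L σ hσ hL N D A B hA hB hA0 hAB)
    · intro f hf
      rw [Set.mem_singleton_iff.1 hf]
      exact ⟨4, hG⟩
  tfae_finish

end Pool.Agent.MazurC.ReductionsOverQ
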