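import Mathlib
import Pool.Agent.MazurC.Unirat

namespace Pool.Agent.MazurC.UnirationalStrataResult

open MvPolynomial Pool.Agent.MazurC

/-- Let `X` be a closed subset of projective `n`-space over a number field `K`, defined by the
forms in `S`, and `W` the closed subset of `X` where the forms in `T` vanish too; let `L` be a
completion of `K`. Suppose the local Zariski closures of `W(K)` at the points of `W(L)` are
finitely many (e.g. `W` is empty), and that there are finitely many closed subsets (with ideals in
the finite set `Y`) such that every `K`-point `y` of `X` outside `W` has a polynomial map `φ` from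
an affine space over `K` to `X` with `φ(0) = y` whose image is dense in one of them. Then the local
Zariski closures of `X(K)` at the points of `X(L)` are finitely many. -/
theorem result (K : Type) [Field K] [NumberField K] (L : Type) [NontriviallyNormedField L]
    [CompleteSpace L] (σ : K →+* L) (hσ : DenseRange σ) (n : ℕ)
    (S T : Set (MvPolynomial (Fin (n + 1)) K)) (hT : ∀ g ∈ T, ∃ d : ℕ, g.IsHomogeneous d)
    (hW : {J : Set (MvPolynomial (Fin (n + 1)) K) | ∃ x : Fin (n + 1) → L, x ≠ 0 ∧
      (∀ g ∈ S ∪ T, eval₂ σ x g = 0) ∧ J = localIdeal σ (S ∪ T) x}.Finite)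
    (Y : Set (Set (MvPolynomial (Fin (n + 1)) K))) (hY : Y.Finite)
    (hcover : ∀ y : Fin (n + 1) → K, y ≠ 0 → (∀ g ∈ S, eval y g = 0) →
      (∃ g ∈ T, eval y g ≠ 0) →
      ∃ (r : ℕ) (φ : Fin (n + 1) → MvPolynomial (Fin r) K), (∀ i, eval 0 (φ i) = y i) ∧
        (∀ u : Fin r → K, ∀ g ∈ S, eval (fun i => eval u (φ i)) g = 0) ∧ imageIdeal φ ∈ Y) :
    {J : Set (MvPolynomial (Fin (n + 1)) K) | ∃ x : Fin (n + 1) → L, x ≠ 0 ∧
      (∀ g ∈ S, eval₂ σ x g = 0) ∧ J = localIdeal σ S x}.Finite :=
  finitelyMany_of_cover hσ hT Y hY hcover hW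

end Pool.Agent.MazurC.UnirationalStrataResult
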